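import Pool.Agent.H29B.Fin
import Pool.Agent.H29D.FanE
import Pool.Agent.Helper29L.Shell1

/-!
# The 2-Selmer groups of the bounded quadratic twists of almost ALL elliptic curves: the law and all moments

The elliptic curves over `ℚ` are given by ALL pairs `P = (a, b)` of integers with `4 a ^ 3 + 27 b ^ 2 ≠ 0`, ordered by
`H(a, b) = max (|a| ^ 3) (b ^ 2)`.

Theorem. For every `m` and every `ε > 0` there are `k` and finite sets `𝒬 0`, …, `𝒬 k` of primes (`1` modulo `8`)
such that for all large `X` all but at most the proportion `ε` of ALL pairs `P` with `H(P) ≤ X` satisfy the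
following. Let `L_i(P)` be the set of the `Q ∈ 𝒬 i` for which `Q ∣ b` and `x ^ 2 + a` is irreducible
modulo `Q`. These sets are not empty, and there is `s` such that for ALL choices of `Q_i ∈ L_i(P)`, `i < j`, `j ≤ k + 1`,
the dimension of `Sel_2(P^{(d)})`, `d = Q_0 ⋯ Q_{j - 1}`, is `s + j` modulo `2`; and for `j = k` and for `j = k + 1`, if the
`Q_i ∈ L_i(P)` are chosen uniformly and independently, then, up to `ε`,
* the average of `(# Sel_2(P^{(d)})) ^ i` is `∏_{l = 1}^{i} (1 + 2 ^ l)`, for all `i ≤ m` (so `3`, `15`, `135`, …: the moments which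
  Poonen and Rains predict, here for each of the two parities),
* the average of `F(dim Sel_2(P^{(d)}))` is `2 ∑ C_{2, n} F(n)`, the sum over all `n = s + j` modulo `2`, for ALL functions `F` with
  `|F(n)| ≤ 2 ^ {m n}`. (The bounded functions `F` give the distribution, in total variation.)

In particular (2), for all `N` and `ε > 0` there is `D` such that for all but the proportion `ε` of ALL elliptic curves
over `ℚ` and ALL `n ≤ N` there is a twist by a squarefree `1 ≤ d ≤ D` whose 2-Selmer group has dimension exactly `n`.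

For one curve and twists by primes which go to infinity the distribution is due to Klagsbrun, Mazur and
Rubin (A Markov model for Selmer ranks in families of twists); here the twists are bounded, uniformly for
almost all curves. This needs, instead of the theorem of Chebotarev for the Selmer fields of one curve,
bounds for the number of curves with a Selmer class which is not equidistributed at the primes of the
levels.

Proof (`Pool/Agent/H29A`, `H29B`; see the docstrings of the pieces in the files `Stm.lean`). Nearly all pairs are such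
that the cubic is irreducible and the prime powers `q ^ k`, `k ≥ 2`, which divide the discriminant divide a
number `W` which depends on `ε` only. The primes of the levels are `1` modulo `W`, so the twists are locally
isomorphic to the curve at the primes dividing `W`. A nontrivial class of the Selmer group of a twist gives an
integral ternary quadratic form `c₂(x ^ 2 / α)` of bounded determinant which is isotropic over `ℚ` (Hasse and
Minkowski), so by reduction theory with bounded denominators a binary quartic form of bounded height with the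
invariants of a fixed multiple of the twist and prescribed behaviour modulo the primes of the level; these are
counted. So for all but few pairs every class is trivial at about one half of the primes of every level. By
the product formula for the Hasse invariants the local classes are a totally singular space, of the maximal
dimension; linear algebra shows that the dimensions of the Selmer groups of the twists are a Markov chain, up
to `ε`, whose limit is the law of Poonen and Rains with the parity. The moments (`Pool/Agent/H29D`): the averages of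
`2 ^ {m n}` over the chain satisfy the recursion `f_m(k + 1) = 2 ^ {-m} f_m(k) + (2 ^ m - 2 ^ {-m}) f_{m - 1}(k)`, so they converge to
`∏ (1 + 2 ^ l)` and are bounded; so the tails are uniformly small, and the chain converges against all
functions of growth `2 ^ {m n}`. The bound of the dimension for the curves themselves depends on `ε` only, so the number
and the accuracy of the levels can be chosen after it.

Written with helpers 6, 12, 13, 22, 28, 52, 53, 58, 61, 78, 85, 86, 88, 94 (the pieces of `H29A` and `H29B`) and 23, 24, 30,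
52, 61, 90 (`Pool/Agent/Helper29L`), on the library of the projects named in their headers.
-/

set_option autoImplicit false
set_option linter.all false

namespace Pool.Agent.Results.MP_8cb858_nt.AllMomentsAlmostEveryCurve

open Filter
open Pool.Agent.H30EV (curve)
open Pool.Agent.H30GR (Sel2)
open scoped Classical

/-- The height `H(a, b) = max (|a| ^ 3) (|b| ^ 2)`. -/
def height (P : ℤ × ℤ) : ℕ := max (P.1.natAbs ^ 3) (P.2.natAbs ^ 2)

/-- All pairs `(a, b)` of integers with `4 a ^ 3 + 27 b ^ 2 ≠ 0` and `H(a, b) ≤ X`. -/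
def pairs (X : ℕ) : Set (ℤ × ℤ) := {P | 4 * P.1 ^ 3 + 27 * P.2 ^ 2 ≠ 0 ∧ height P ≤ X}

/-- The order of the 2-Selmer group over `ℚ` of `y ^ 2 = x ^ 3 + a x + b`, `P = (a, b)`. -/
noncomputable def order (P : ℤ × ℤ) : ℕ := Nat.card (Sel2 (curve ℚ P))

/-- The 2-Selmer group is finite, of order `2 ^ n`. -/
def SelmerDim (P : ℤ × ℤ) (n : ℕ) : Prop := Finite (Sel2 (curve ℚ P)) ∧ order P = 2 ^ n

/-- The dimension of the 2-Selmer group. -/
noncomputable def dim (P : ℤ × ℤ) : ℕ := Nat.log 2 (order P)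

/-- The number `C_{2, n}` of Poonen and Rains. -/
noncomputable def poonenRains (n : ℕ) : ℝ :=
  (∏' j : ℕ, (1 + (1 / 2 : ℝ) ^ j))⁻¹ * ∏ i ∈ Finset.Icc 1 n, (2 : ℝ) / (2 ^ i - 1)

/-- The sum of `C_{2, n} F(n)` over the `n` which are `r` modulo `2`. -/
noncomputable def mean (r : ℕ) (F : ℕ → ℝ) : ℝ :=
  ∑' n, {n : ℕ | n % 2 = r % 2}.indicator (fun n => poonenRains n * F n) n

/-- The quadratic twist by `d`. -/
def twist (P : ℤ × ℤ) (d : ℕ) : ℤ × ℤ := (P.1 * (d : ℤ) ^ 2, P.2 * (d : ℤ) ^ 3)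

/-- The primes `Q ∈ 𝒬` which divide `b` and for which `x ^ 2 + a` has no zero modulo `Q`. -/
noncomputable def level (𝒬 : Finset ℕ) (P : ℤ × ℤ) : Finset ℕ :=
  𝒬.filter fun Q => (Q : ℤ) ∣ P.2 ∧ ∀ z : ℤ, ¬ (Q : ℤ) ∣ z ^ 2 + P.1

/-- The average of `G(P^{(d)})`, `d = Q_0 ⋯ Q_{j - 1}`, if the primes `Q_i` are chosen uniformly in the levels
`level (𝒬 i) P`, `i < j`. -/
noncomputable def average (j : ℕ) (𝒬 : ℕ → Finset ℕ) (P : ℤ × ℤ) (G : ℤ × ℤ → ℝ) : ℝ :=
  (∑ Q ∈ (Fintype.piFinset fun i : Fin j => level (𝒬 i) P), G (twist P (∏ i, Q i))) /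
  ((Fintype.piFinset fun i : Fin j => level (𝒬 i) P).card : ℝ)

/-- The levels `0`, …, `k` are not empty; the dimensions of the 2-Selmer groups of the twists by the
products of `j` primes are `s + j` modulo `2`; and for `j = k`, `k + 1`, up to `ε`, the averages of `F (dim)` are the
ones of Poonen and Rains for this parity, for all functions `F` with `|F(n)| ≤ 2 ^ (m n)`, and the averages of
the powers `i ≤ m` of the orders of the 2-Selmer groups are `∏_{l = 1}^{i} (1 + 2 ^ l)`. -/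
def NearPoonenRains (m : ℕ) (ε : ℝ) (k : ℕ) (𝒬 : ℕ → Finset ℕ) (P : ℤ × ℤ) : Prop :=
  (∀ i ≤ k, (level (𝒬 i) P).Nonempty) ∧ ∃ s : ℕ,
    (∀ j ≤ k + 1, ∀ Q : Fin j → ℕ, (∀ i : Fin j, Q i ∈ level (𝒬 i) P) →
      ∃ n, n % 2 = (s + j) % 2 ∧ SelmerDim (twist P (∏ i, Q i)) n) ∧
    ∀ j : ℕ, j = k ∨ j = k + 1 →
      (∀ F : ℕ → ℝ, (∀ n, |F n| ≤ 2 ^ (m * n)) →
        |average j 𝒬 P (fun E => F (dim E)) - 2 * mean (s + j) F| ≤ ε) ∧
      ∀ i ≤ m, |average j 𝒬 P (fun E => (order E : ℝ) ^ i) - ∏ l ∈ Finset.Icc 1 i, (1 + (2 : ℝ) ^ l)| ≤ ε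

/-- The sums in `mean` converge absolutely, if `|F(n)| ≤ 2 ^ (m n)`. -/
theorem mean_summable (m r : ℕ) {F : ℕ → ℝ} (hF : ∀ n, |F n| ≤ 2 ^ (m * n)) :
    Summable ({n : ℕ | n % 2 = r % 2}.indicator fun n => poonenRains n * F n) :=
  Pool.Agent.H29D.W_sum (r % 2) m fun n => (hF n).trans (le_of_eq (pow_mul _ _ _))

theorem dim_eq {P : ℤ × ℤ} {n : ℕ} (h : SelmerDim P n) : dim P = n := by
  unfold dim
  rw [h.2]
  exact Nat.log_pow (by norm_num) n

open Pool.Agent.Helper29L in
theorem prod_eq {j : ℕ} {𝒬 : ℕ → Finset ℕ} (hdis : ∀ i < j, ∀ i' < i, Disjoint (𝒬 i') (𝒬 i))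
    {P : ℤ × ℤ} {Q : Fin j → ℕ} (hQ1 : ∀ i : Fin j, Q i ∈ lv 𝒬 P i) :
    ∏ q ∈ Finset.univ.image Q, q = ∏ i, Q i := by
  have hinj : Function.Injective Q := by
    intro i i' h
    by_contra hne
    have hij : (i : ℕ) ≠ i' := fun h3 => hne (Fin.ext h3)
    have m1 : Q i ∈ 𝒬 i := (Finset.mem_filter.1 (hQ1 i)).1
    have m2 : Q i ∈ 𝒬 i' := by
      rw [h]
      exact (Finset.mem_filter.1 (hQ1 i')).1
    rcases lt_or_gt_of_ne hij with h3 | h3
    · exact Finset.disjoint_left.1 (hdis i' i'.2 i h3) m1 m2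
    · exact Finset.disjoint_left.1 (hdis i i.2 i' h3) m2 m1
  exact Finset.prod_image fun i _ i' _ h => hinj h

open Pool.Agent.Helper29L in
theorem pairs_eq (X : ℕ) : pairs X = Pool.Agent.H29B.AllT X := rfl

open Pool.Agent.Helper29L in
theorem near_of {m : ℕ} {ε δ : ℝ} {R k : ℕ} (hW : ∀ A : ℕ → Finset ℕ,
    (∀ i < k + 1, (A i).Nonempty) → ∀ r : Finset ℕ → ℕ, r ∅ ≤ R →
    (∀ i < k + 1, StepOK r δ ((Finset.range i).biUnion A) (A i)) →
    ∀ j : ℕ, j = k ∨ j = k + 1 → ∀ F : ℕ → ℝ, (∀ n, |F n| ≤ Pool.Agent.H29D.gm m n) →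
      |Pool.Agent.H29D.mean j A (fun Z => F (r Z)) - 2 * Pool.Agent.H29D.W ((r ∅ + j) % 2) F| ≤ ε)
    {𝒬 : ℕ → Finset ℕ} (hdis : ∀ i < k + 1, ∀ j < i, Disjoint (𝒬 j) (𝒬 i)) {P : ℤ × ℤ}
    (h : Rk R k δ 𝒬 P) : NearPoonenRains m ε k 𝒬 P := by
  obtain ⟨hne, r, hr, hr1, hstep⟩ := h
  have key : ∀ j ≤ k + 1, ∀ Q : Fin j → ℕ, (∀ i : Fin j, Q i ∈ lv 𝒬 P i) →
      SelmerDim (twist P (∏ i, Q i)) (r (Finset.univ.image Q)) := by
    intro j hj Q hQ
    have h1 := hr1 _ (img_sub hj hQ)
    rw [prod_eq (fun i hi => hdis i (by omega)) hQ] at h1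
    exact h1
  have avg : ∀ j ≤ k + 1, ∀ (G : ℤ × ℤ → ℝ) (F : ℕ → ℝ), (∀ E n, SelmerDim E n → G E = F n) →
      average j 𝒬 P G = Pool.Agent.H29D.mean j (lv 𝒬 P) (fun Z => F (r Z)) := by
    intro j hj G F hGF
    unfold average Pool.Agent.H29D.mean
    refine congrArg₂ (· / ·) (Finset.sum_congr rfl fun Q hQ => ?_) rfl
    exact hGF _ _ (key j hj Q fun i => Fintype.mem_piFinset.1 hQ i)
  refine ⟨fun i hi => hne i (Nat.lt_succ_of_le hi), r ∅, fun j hj Q hQ => ?_, fun j hj => ⟨?_, ?_⟩⟩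
  · exact ⟨r (Finset.univ.image Q), parQ hstep j hj Q hQ, key j hj Q hQ⟩
  · intro F hF
    rw [avg j (by omega) _ F fun E n hE => by rw [dim_eq hE]]
    exact hW (lv 𝒬 P) hne r hr hstep j hj F fun n => (hF n).trans (le_of_eq (pow_mul _ _ _))
  · intro i hi
    rw [avg j (by omega) _ (Pool.Agent.H29D.gm i) fun E n hE => by
      rw [hE.2]
      unfold Pool.Agent.H29D.gm
      push_cast
      exact pow_right_comm _ _ _]
    have h1 := hW (lv 𝒬 P) hne r hr hstep j hj (Pool.Agent.H29D.gm i) fun n => by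
      rw [abs_of_nonneg (Pool.Agent.H29D.gm_nonneg i n)]
      unfold Pool.Agent.H29D.gm
      exact pow_le_pow_left₀ (by positivity) (pow_le_pow_right₀ (by norm_num) hi) n
    rw [Pool.Agent.H29D.W_gm i _ (Nat.mod_lt _ (by norm_num))] at h1
    exact h1

theorem main (m : ℕ) {ε : ℝ} (hε : 0 < ε) : ∃ (k : ℕ) (𝒬 : ℕ → Finset ℕ),
    (∀ i ≤ k, ∀ Q ∈ 𝒬 i, Q.Prime ∧ Q % 8 = 1) ∧ (∀ i ≤ k, ∀ j < i, Disjoint (𝒬 j) (𝒬 i)) ∧
    ∀ᶠ X : ℕ in atTop, ({P ∈ pairs X | ¬ NearPoonenRains m ε k 𝒬 P}.ncard : ℝ) ≤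
      ε * ((pairs X).ncard : ℝ) := by
  obtain ⟨R, hR⟩ := Pool.Agent.H29B.main3 Pool.Agent.H29B.pcs Pool.Agent.H29B.plbb
    Pool.Agent.H29A.t_MOMW Pool.Agent.H29A.t_PRW Pool.Agent.H29B.t_TAILB Pool.Agent.H29A.t_DEN hε
  obtain ⟨k, δ, hδ, hδ1, hW⟩ := Pool.Agent.H29D.wfan m hε R
  obtain ⟨𝒬, h8, hdis, hev⟩ := hR k δ hδ hδ1
  refine ⟨k, 𝒬, fun i hi => h8 i (Nat.lt_succ_of_le hi), fun i hi => hdis i (Nat.lt_succ_of_le hi), ?_⟩
  filter_upwards [hev] with X hX
  rw [pairs_eq]
  refine le_trans ?_ hX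
  have hfin : {P : ℤ × ℤ | P ∈ Pool.Agent.H29B.AllT X ∧
      ¬ (Pool.Agent.Helper29L.Rk R k δ 𝒬 P ∧ ∀ z : ℤ, z ^ 3 + P.1 * z + P.2 ≠ 0)}.Finite :=
    (Pool.Agent.Helper29L.fin_hgt X).subset fun P hP => hP.1.2
  exact Nat.cast_le.2 (Set.ncard_le_ncard (fun P hP => ⟨hP.1, fun hn => hP.2 (near_of hW hdis hn.1)⟩)
    hfin)

/-- **The 2-Selmer groups of bounded twists of almost all elliptic curves over `ℚ`.** (1) The law over the
bounded twists, with the parity, against all functions of growth `2 ^ (m n)`, and the moments. (2) All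
small dimensions occur for bounded twists. -/
theorem result :
    (∀ (m : ℕ) (ε : ℝ), 0 < ε → ∃ (k : ℕ) (𝒬 : ℕ → Finset ℕ),
      (∀ i ≤ k, ∀ Q ∈ 𝒬 i, Q.Prime ∧ Q % 8 = 1) ∧ (∀ i ≤ k, ∀ j < i, Disjoint (𝒬 j) (𝒬 i)) ∧
      ∀ᶠ X : ℕ in atTop, ({P ∈ pairs X | ¬ NearPoonenRains m ε k 𝒬 P}.ncard : ℝ) ≤
        ε * ((pairs X).ncard : ℝ)) ∧
    ∀ (N : ℕ) (ε : ℝ), 0 < ε → ∃ D : ℕ, ∀ᶠ X : ℕ in atTop,
      ({P ∈ pairs X | ¬ ∀ n ≤ N, ∃ d : ℕ, 1 ≤ d ∧ d ≤ D ∧ Squarefree d ∧
        SelmerDim (twist P d) n}.ncard : ℝ) ≤ ε * ((pairs X).ncard : ℝ) := by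
  refine ⟨fun m ε hε => main m hε, ?_⟩
  · intro N ε hε
    -- a lower bound for the probabilities
    obtain ⟨δ, hδ, hδN⟩ : ∃ δ : ℝ, 0 < δ ∧ ∀ n ≤ N, 2 * δ ≤ poonenRains n := by
      have hpos : ∀ n, 0 < poonenRains n := Pool.Agent.Helper29L.c2.1
      obtain ⟨m, hm, hmin⟩ := Finset.exists_min_image (Finset.range (N + 1)) poonenRains
        ⟨0, Finset.mem_range.2 (Nat.succ_pos N)⟩
      exact ⟨poonenRains m / 2, half_pos (hpos m), fun n hn => by
        have := hmin n (Finset.mem_range.2 (Nat.lt_succ_of_le hn))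
        linarith⟩
    obtain ⟨k, 𝒬, h8, hdis, hev⟩ := main 0 (lt_min hε hδ)
    refine ⟨∏ Q ∈ (Finset.range (k + 1)).biUnion 𝒬, Q, ?_⟩
    filter_upwards [hev] with X hX
    refine le_trans ?_ (hX.trans (mul_le_mul_of_nonneg_right (min_le_left _ _) (Nat.cast_nonneg _)))
    have hfin : (pairs X).Finite :=
      (Pool.Agent.Helper29L.fin_hgt X).subset fun P hP => hP.2
    refine Nat.cast_le.2 (Set.ncard_le_ncard (fun P hP => ⟨hP.1, fun hn => hP.2 ?_⟩)
      (hfin.subset fun P hP => hP.1))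
    intro n hnN
    obtain ⟨hne, s, hs0, hs⟩ := hn
    obtain ⟨F, hF⟩ : ∃ F : ℕ → ℝ, F = fun i => if i = n then 1 else 0 := ⟨_, rfl⟩
    have hFb : ∀ i, |F i| ≤ 2 ^ (0 * i) := by
      intro i
      rw [hF, zero_mul, pow_zero]
      by_cases h : i = n
      · simp [h]
      · simp [h]
    obtain ⟨j, hj, hjn⟩ : ∃ j : ℕ, (j = k ∨ j = k + 1) ∧ n % 2 = (s + j) % 2 := by
      by_cases h : n % 2 = (s + k) % 2
      · exact ⟨k, Or.inl rfl, h⟩
      · exact ⟨k + 1, Or.inr rfl, by omega⟩
    have hjk : j ≤ k + 1 := by omega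
    have h1 := (abs_le.1 ((hs j hj).1 F hFb)).1
    have e : mean (s + j) F = poonenRains n := by
      unfold mean
      rw [tsum_eq_single n]
      · rw [Set.indicator_of_mem (show n ∈ {n : ℕ | n % 2 = (s + j) % 2} from hjn), hF]
        simp
      · intro i hi
        by_cases h : i ∈ {n : ℕ | n % 2 = (s + j) % 2}
        · rw [Set.indicator_of_mem h, hF]
          simp [hi]
        · exact Set.indicator_of_notMem h _
    rw [e] at h1
    have h2 := hδN n hnN
    have h3 := min_le_right ε δ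
    have h5 : 0 < average j 𝒬 P (fun E => F (dim E)) := by linarith
    obtain ⟨Q, hQ1, hQ2⟩ : ∃ Q ∈ (Fintype.piFinset fun i : Fin j => level (𝒬 i) P),
        F (dim (twist P (∏ i, Q i))) ≠ 0 := by
      by_contra hcon
      push Not at hcon
      unfold average at h5
      rw [Finset.sum_eq_zero hcon, zero_div] at h5
      exact lt_irrefl _ h5
    have hQ3 := Fintype.mem_piFinset.1 hQ1
    have hQ4 : SelmerDim (twist P (∏ i, Q i)) n := by
      obtain ⟨n', -, h6⟩ := hs0 j hjk Q hQ3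
      rw [dim_eq h6, hF] at hQ2
      have h7 : n' = n := by
        by_contra h8
        exact hQ2 (if_neg h8)
      rw [← h7]
      exact h6
    have hmem : ∀ i : Fin j, Q i ∈ 𝒬 i := fun i => (Finset.mem_filter.1 (hQ3 i)).1
    have hik : ∀ i : Fin j, (i : ℕ) ≤ k := fun i => by
      have := i.2
      omega
    have hprime : ∀ i : Fin j, (Q i).Prime := fun i => (h8 i (hik i) _ (hmem i)).1
    have hinj : Function.Injective Q := by
      intro i i' h
      by_contra hne
      have hij : (i : ℕ) ≠ i' := fun h3 => hne (Fin.ext h3)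
      have m1 : Q i ∈ 𝒬 i := hmem i
      have m2 : Q i ∈ 𝒬 i' := by
        rw [h]
        exact hmem i'
      rcases lt_or_gt_of_ne hij with h3 | h3
      · exact Finset.disjoint_left.1 (hdis i' (hik i') i h3) m1 m2
      · exact Finset.disjoint_left.1 (hdis i (hik i) i' h3) m2 m1
    have e2 : ∏ q ∈ Finset.univ.image Q, q = ∏ i, Q i := by
      rw [Finset.prod_image fun i _ i' _ h => hinj h]
    refine ⟨∏ i, Q i, Finset.prod_pos fun i _ => (hprime i).pos, ?_, ?_, hQ4⟩
    · rw [← e2]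
      refine Finset.prod_le_prod_of_subset_of_one_le' ?_ ?_
      · intro q hq
        obtain ⟨i, -, rfl⟩ := Finset.mem_image.1 hq
        exact Finset.mem_biUnion.2 ⟨i, Finset.mem_range.2 (Nat.lt_succ_of_le (hik i)), hmem i⟩
      · intro q hq _
        obtain ⟨i, hi, hq⟩ := Finset.mem_biUnion.1 hq
        exact (h8 i (Nat.le_of_lt_succ (Finset.mem_range.1 hi)) q hq).1.one_lt.le
    · refine Finset.squarefree_prod_of_pairwise_isCoprime ?_ fun i _ => (hprime i).prime.squarefree
      intro i _ i' _ hne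
      exact Nat.coprime_iff_isRelPrime.1
        ((Nat.coprime_primes (hprime i) (hprime i')).2 fun h => hne (hinj h))

end Pool.Agent.Results.MP_8cb858_nt.AllMomentsAlmostEveryCurve
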