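import Pool.Agent.H29C.ThmD
import Pool.Agent.H29A.PRW
import Pool.Agent.Helper29L.Shell1

/-!
# Every dimension of the 2-Selmer group, in every class of elliptic curves over `ℚ`

The elliptic curves over `ℚ` are given by all pairs `P = (a, b)` of integers with `4 a ^ 3 + 27 b ^ 2 ≠ 0`, ordered by
`H(a, b) = max (|a| ^ 3) (b ^ 2)`.

Theorem. (1) Let `𝒟` be a set of primes such that for every `W` the sum of `1 / Q` over the `Q ∈ 𝒟`, `Q = 1` modulo `W`, diverges. For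
all `N` and `c > 0` there is `c' > 0` such that for EVERY set `𝒞` of pairs which contains at least the proportion `c` of all
pairs up to each large height, and is closed under the quadratic twists by the primes in `𝒟`, and for every `n ≤ N`, the
pairs in `𝒞` whose 2-Selmer group has dimension `n` are at least the proportion `c'` of all pairs up to each large height.
(2) In particular in every residue class of pairs modulo every `M`, for each sign of `4 a ^ 3 + 27 b ^ 2`, every `n` is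
the dimension of the 2-Selmer group of a positive proportion of all elliptic curves, with a proportion which depends only
on `M` and `n`.

So in all families given by congruences and the sign of the discriminant all dimensions occur with positive lower density,
as the law of Poonen and Rains predicts. The sets `𝒞` in (1) can also be given by conditions at
infinitely many primes, and need not have a density; and `c'` does not depend on `𝒞`.

Proof. By `Pool/Agent/H29A`, `H29B`, `H29C/ThmD.lean` (see `Results/MP_8cb858_nt/AllMomentsAlmostEveryCurve.lean`) for every `ε > 0`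
there is a finite set of primes of `𝒟` such that for all but the proportion `ε` of all pairs `P` the dimensions of the
2-Selmer groups of the twists of `P` by certain squarefree products of these primes have nearly the law of Poonen and
Rains. So if `ε` is small then for all but the proportion `ε` of all pairs and every `n ≤ N` there is `d ≤ D` such that
the dimension is `n` for the twist by `d`. The twist by `d` is injective and multiplies the height by `d ^ 6`, and the twists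
of the pairs in `𝒞` are in `𝒞`.

Written with the helpers named in `AllMomentsAlmostEveryCurve.lean`, on the library of the projects named in their headers.
-/

set_option autoImplicit false
set_option linter.all false

namespace Pool.Agent.Results.MP_8cb858_nt.EveryDimensionInEveryClass

open Filter
open Pool.Agent.H30EV (curve)
open Pool.Agent.H30GR (Sel2)
open scoped Classical

/-- The height `H(a, b) = max (|a| ^ 3) (|b| ^ 2)`. -/
def height (P : ℤ × ℤ) : ℕ := max (P.1.natAbs ^ 3) (P.2.natAbs ^ 2)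

/-- All pairs `(a, b)` of integers with `4 a ^ 3 + 27 b ^ 2 ≠ 0` and `H(a, b) ≤ X`. -/
def pairs (X : ℕ) : Set (ℤ × ℤ) := {P | 4 * P.1 ^ 3 + 27 * P.2 ^ 2 ≠ 0 ∧ height P ≤ X}

/-- The set `𝒞` has lower density at least `c`: for all large `X` it contains at least the proportion `c` of the pairs
up to `X`. -/
def DensityAtLeast (c : ℝ) (𝒞 : Set (ℤ × ℤ)) : Prop :=
  ∀ᶠ X : ℕ in atTop, c * ((pairs X).ncard : ℝ) ≤ ((𝒞 ∩ pairs X).ncard : ℝ)

/-- The 2-Selmer group over `ℚ` of `y ^ 2 = x ^ 3 + a x + b`, `P = (a, b)`, has dimension `n`. -/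
def SelmerDim (P : ℤ × ℤ) (n : ℕ) : Prop :=
  Finite (Sel2 (curve ℚ P)) ∧ Nat.card (Sel2 (curve ℚ P)) = 2 ^ n

/-- The quadratic twist by `d`. -/
def twist (P : ℤ × ℤ) (d : ℕ) : ℤ × ℤ := (P.1 * (d : ℤ) ^ 2, P.2 * (d : ℤ) ^ 3)

/-- The set `𝒞` is closed under the quadratic twists by the primes in `𝒟`. -/
def TwistClosed (𝒟 : Set ℕ) (𝒞 : Set (ℤ × ℤ)) : Prop :=
  ∀ P ∈ 𝒞, ∀ Q ∈ 𝒟, Q.Prime → twist P Q ∈ 𝒞

/-- For every `W` the sum of `1 / Q` over the primes `Q ∈ 𝒟` which are `1` modulo `W` diverges. (For example the primes which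
are `1` modulo `M`, or which split completely in a given number field, or all primes outside a set with a convergent
sum of reciprocals.) -/
def Thick (𝒟 : Set ℕ) : Prop :=
  ∀ W : ℕ, 0 < W → ¬ Summable fun n : ℕ => {Q : ℕ | Q.Prime ∧ Q ∈ 𝒟 ∧ Q ≡ 1 [MOD W]}.indicator (fun Q : ℕ => (1 : ℝ) / Q) n

/-- The pairs which are `(a, b)` modulo `M`, with the sign `s` of `4 a ^ 3 + 27 b ^ 2`. -/
def residueClass (M : ℕ) (a b : ℤ) (s : SignType) : Set (ℤ × ℤ) :=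
  {P | P.1 ≡ a [ZMOD M] ∧ P.2 ≡ b [ZMOD M] ∧ SignType.sign (4 * P.1 ^ 3 + 27 * P.2 ^ 2) = s}

/-! ### Twists -/

theorem twist_mul (P : ℤ × ℤ) (m q : ℕ) : twist P (m * q) = twist (twist P m) q := by
  unfold twist
  ext
  · push_cast
    ring
  · push_cast
    ring

theorem twist_one (P : ℤ × ℤ) : twist P 1 = P := by
  unfold twist
  ext <;> simp

theorem twist_mem {𝒟 : Set ℕ} {𝒞 : Set (ℤ × ℤ)} (h : TwistClosed 𝒟 𝒞) {P : ℤ × ℤ} (hP : P ∈ 𝒞) :
    ∀ (j : ℕ) (Q : Fin j → ℕ), (∀ i, (Q i).Prime ∧ Q i ∈ 𝒟) → twist P (∏ i, Q i) ∈ 𝒞 := by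
  intro j
  induction j with
  | zero =>
    intro Q _
    rw [Fin.prod_univ_zero, twist_one]
    exact hP
  | succ j ih =>
    intro Q hQ
    rw [Fin.prod_univ_castSucc, twist_mul]
    exact h _ (ih (fun i => Q i.castSucc) fun i => hQ _) _ (hQ _).2 (hQ _).1

theorem twist_inj {d : ℕ} (hd : 0 < d) {P P' : ℤ × ℤ} (h : twist P d = twist P' d) : P = P' := by
  have hd' : (d : ℤ) ≠ 0 := by exact_mod_cast hd.ne'
  obtain ⟨h1, h2⟩ := Prod.mk.inj h
  exact Prod.ext (mul_right_cancel₀ (pow_ne_zero 2 hd') h1) (mul_right_cancel₀ (pow_ne_zero 3 hd') h2)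

theorem twist_height (P : ℤ × ℤ) (d : ℕ) : height (twist P d) = height P * d ^ 6 := by
  unfold height twist
  simp only [Int.natAbs_mul, Int.natAbs_pow, Int.natAbs_natCast]
  rw [mul_pow, mul_pow, ← pow_mul, ← pow_mul, max_mul_of_nonneg _ _ (Nat.zero_le _)]

theorem twist_pairs {P : ℤ × ℤ} {d D X : ℕ} (hP : P ∈ pairs (X / D ^ 6)) (h1 : 1 ≤ d) (h2 : d ≤ D) :
    twist P d ∈ pairs X := by
  refine ⟨?_, ?_⟩
  · have hd' : (d : ℤ) ≠ 0 := by
      have : d ≠ 0 := by omega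
      exact_mod_cast this
    have e : 4 * (twist P d).1 ^ 3 + 27 * (twist P d).2 ^ 2 =
        (4 * P.1 ^ 3 + 27 * P.2 ^ 2) * (d : ℤ) ^ 6 := by
      unfold twist
      ring
    rw [e]
    exact mul_ne_zero hP.1 (pow_ne_zero 6 hd')
  · rw [twist_height]
    calc height P * d ^ 6 ≤ X / D ^ 6 * D ^ 6 :=
          Nat.mul_le_mul hP.2 (Nat.pow_le_pow_left h2 6)
      _ ≤ X := Nat.div_mul_le_self _ _

/-! ### Counting -/

theorem pairs_fin (X : ℕ) : (pairs X).Finite := (Pool.Agent.Helper29L.fin_hgt X).subset fun P hP => hP.2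

theorem pairs_up {X : ℕ} (hX : 1 ≤ X) : ((pairs X).ncard : ℝ) ≤ 9 * (X : ℝ) ^ (5 / 6 : ℝ) := by
  obtain ⟨h1, h2⟩ := Pool.Agent.Helper29L.tot X hX
  refine le_trans ?_ h2
  exact Nat.cast_le.2 (Set.ncard_le_ncard (fun P (hP : P ∈ pairs X) => hP.2) h1)

theorem pairs_low : ∀ᶠ X : ℕ in atTop, (X : ℝ) ^ (5 / 6 : ℝ) ≤ ((pairs X).ncard : ℝ) := by
  filter_upwards [Pool.Agent.H29A.t_DEN] with X hX
  refine hX.2.trans (Nat.cast_le.2 (Set.ncard_le_ncard (fun P hP => ?_) (pairs_fin X)))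
  exact ⟨hP.1.ne', hP.2⟩

/-- The pairs up to `X / D ^ 6` and up to `X`. -/
theorem pairs_div {D : ℕ} (hD : 1 ≤ D) : ∀ᶠ X : ℕ in atTop,
    ((pairs X).ncard : ℝ) ≤ 18 * (D : ℝ) ^ 6 * ((pairs (X / D ^ 6)).ncard : ℝ) := by
  have ht : Tendsto (fun X : ℕ => X / D ^ 6) atTop atTop :=
    Nat.tendsto_div_const_atTop (pow_ne_zero 6 (by omega))
  filter_upwards [ht.eventually pairs_low, eventually_ge_atTop (D ^ 6)] with X h1 h2
  have hD' : (1 : ℝ) ≤ (D : ℝ) ^ 6 := one_le_pow₀ (by exact_mod_cast hD)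
  have hX1 : 1 ≤ X := (Nat.one_le_pow _ _ (by omega)).trans h2
  have h3 := pairs_up hX1
  have h4 : (X : ℝ) ≤ 2 * (D : ℝ) ^ 6 * ((X / D ^ 6 : ℕ) : ℝ) := by
    have h5 : X < (X / D ^ 6 + 1) * D ^ 6 := by
      have := Nat.lt_div_mul_add (a := X) (b := D ^ 6) (Nat.pos_of_ne_zero (pow_ne_zero 6 (by omega)))
      calc X < X / D ^ 6 * D ^ 6 + D ^ 6 := this
        _ = _ := by ring
    have h6 : 1 ≤ X / D ^ 6 := (Nat.one_le_div_iff (Nat.pos_of_ne_zero (pow_ne_zero 6 (by omega)))).2 h2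
    have h7 : X ≤ 2 * D ^ 6 * (X / D ^ 6) := by
      refine h5.le.trans ?_
      calc (X / D ^ 6 + 1) * D ^ 6 ≤ (X / D ^ 6 + X / D ^ 6) * D ^ 6 :=
            Nat.mul_le_mul_right _ (by omega)
        _ = _ := by ring
    exact_mod_cast h7
  have h8 : (X : ℝ) ^ (5 / 6 : ℝ) ≤ 2 * (D : ℝ) ^ 6 * ((X / D ^ 6 : ℕ) : ℝ) ^ (5 / 6 : ℝ) := by
    refine (Real.rpow_le_rpow (Nat.cast_nonneg _) h4 (by norm_num)).trans ?_
    rw [Real.mul_rpow (by positivity) (Nat.cast_nonneg _)]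
    refine mul_le_mul_of_nonneg_right ?_ (by positivity)
    have h9 := Real.rpow_le_rpow_of_exponent_le (x := 2 * (D : ℝ) ^ 6) (by linarith)
      (show (5 / 6 : ℝ) ≤ 1 by norm_num)
    rwa [Real.rpow_one] at h9
  calc ((pairs X).ncard : ℝ) ≤ 9 * (X : ℝ) ^ (5 / 6 : ℝ) := h3
    _ ≤ 9 * (2 * (D : ℝ) ^ 6 * ((X / D ^ 6 : ℕ) : ℝ) ^ (5 / 6 : ℝ)) := by linarith
    _ = 18 * (D : ℝ) ^ 6 * ((X / D ^ 6 : ℕ) : ℝ) ^ (5 / 6 : ℝ) := by ring
    _ ≤ _ := mul_le_mul_of_nonneg_left h1 (by positivity)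

/-! ### The primes -/

theorem prd_of {𝒟 : Set ℕ} (h : Thick 𝒟) : Pool.Agent.H29C.PRD 𝒟 := by
  intro W hW T Λ
  obtain ⟨F, hF⟩ : ∃ F : ℕ → ℝ, F = fun n : ℕ =>
      {Q : ℕ | Q.Prime ∧ Q ∈ 𝒟 ∧ Q ≡ 1 [MOD 8 * W]}.indicator (fun Q : ℕ => (1 : ℝ) / Q) n := ⟨_, rfl⟩
  have hF0 : ∀ n, 0 ≤ F n := by
    intro n
    rw [hF]
    exact Set.indicator_nonneg (fun Q _ => by positivity) n
  have hns := h (8 * W) (by omega)
  rw [← hF] at hns
  have ht := (not_summable_iff_tendsto_nat_atTop_of_nonneg hF0).1 hns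
  obtain ⟨S, hS⟩ : ∃ S : Finset ℕ, S = T ∪ Finset.range (W + 1) := ⟨_, rfl⟩
  obtain ⟨n, hn⟩ := (ht.eventually_ge_atTop (Λ + ∑ i ∈ S, F i)).exists
  refine ⟨(Finset.range n).filter fun Q => (Q.Prime ∧ Q ∈ 𝒟 ∧ Q ≡ 1 [MOD 8 * W]) ∧ Q ∉ S, ?_, ?_, ?_, ?_, ?_⟩
  · intro Q hQ
    obtain ⟨-, ⟨h1, -, h2⟩, -⟩ := Finset.mem_filter.1 hQ
    exact ⟨h1, Nat.ModEq.of_mul_right W h2⟩
  · intro Q hQ
    obtain ⟨-, ⟨-, -, h2⟩, h3⟩ := Finset.mem_filter.1 hQ
    refine ⟨Nat.ModEq.of_mul_left 8 h2, ?_⟩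
    by_contra hcon
    refine h3 ?_
    rw [hS]
    exact Finset.mem_union_right _ (Finset.mem_range.2 (by omega))
  · intro Q hQ
    exact (Finset.mem_filter.1 hQ).2.1.2.1
  · rw [Finset.disjoint_left]
    intro Q hQ hQ2
    refine (Finset.mem_filter.1 hQ2).2.2 ?_
    rw [hS]
    exact Finset.mem_union_left _ hQ
  · have h4 : ∑ i ∈ Finset.range n, F i ≤
        ∑ Q ∈ (Finset.range n).filter (fun Q => (Q.Prime ∧ Q ∈ 𝒟 ∧ Q ≡ 1 [MOD 8 * W]) ∧ Q ∉ S), (1 : ℝ) / Q +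
        ∑ i ∈ S, F i := by
      have h5 : ∑ i ∈ Finset.range n, F i ≤ ∑ i ∈ (Finset.range n).filter (fun i => i ∉ S), F i +
          ∑ i ∈ S, F i := by
        rw [← Finset.sum_filter_add_sum_filter_not (Finset.range n) (fun i => i ∉ S)]
        refine add_le_add le_rfl (Finset.sum_le_sum_of_subset_of_nonneg ?_ fun i _ _ => hF0 i)
        intro i hi
        exact not_not.1 (Finset.mem_filter.1 hi).2
      refine h5.trans (add_le_add (le_of_eq ?_) le_rfl)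
      rw [Finset.sum_filter, Finset.sum_filter]
      refine Finset.sum_congr rfl fun i _ => ?_
      by_cases h6 : i ∉ S
      · rw [if_pos h6, hF]
        by_cases h7 : i.Prime ∧ i ∈ 𝒟 ∧ i ≡ 1 [MOD 8 * W]
        · rw [if_pos ⟨h7, h6⟩]
          exact Set.indicator_of_mem (show i ∈ {Q : ℕ | Q.Prime ∧ Q ∈ 𝒟 ∧ Q ≡ 1 [MOD 8 * W]} from h7) _
        · rw [if_neg fun h8 => h7 h8.1]
          exact Set.indicator_of_notMem (show i ∉ {Q : ℕ | Q.Prime ∧ Q ∈ 𝒟 ∧ Q ≡ 1 [MOD 8 * W]} from h7) _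
      · rw [if_neg h6, if_neg fun h8 => h6 h8.2]
    linarith

theorem prd {M : ℕ} (hM : 0 < M) : Pool.Agent.H29C.PRD {Q | Q ≡ 1 [MOD M]} := by
  intro W hW T Λ
  obtain ⟨𝒬, h8, h1, h2, h3⟩ := Pool.Agent.H29A.t_PRW (W * M) (mul_ne_zero hW hM.ne') T Λ
  refine ⟨𝒬, h8, fun Q hQ => ⟨?_, ?_⟩, fun Q hQ => ?_, h2, h3⟩
  · exact Nat.ModEq.of_mul_right M (h1 Q hQ).1
  · exact lt_of_le_of_lt (Nat.le_mul_of_pos_right W hM) (h1 Q hQ).2
  · exact Nat.ModEq.of_mul_left W (h1 Q hQ).1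

open Pool.Agent.Helper29L in
theorem prod_eq {j : ℕ} {𝒬 : ℕ → Finset ℕ} (hdis : ∀ i < j, ∀ i' < i, Disjoint (𝒬 i') (𝒬 i))
    {P : ℤ × ℤ} {Q : Fin j → ℕ} (hQ1 : ∀ i : Fin j, Q i ∈ lv 𝒬 P i) :
    ∏ q ∈ Finset.univ.image Q, q = ∏ i, Q i := by
  have hinj : Function.Injective Q := by
    intro i i' h
    by_contra hne
    have hij : (i : ℕ) ≠ i' := fun h3 => hne (Fin.ext h3)
    have m1 : Q i ∈ 𝒬 i := (Finset.mem_filter.1 (hQ1 i)).1
    have m2 : Q i ∈ 𝒬 i' := by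
      rw [h]
      exact (Finset.mem_filter.1 (hQ1 i')).1
    rcases lt_or_gt_of_ne hij with h3 | h3
    · exact Finset.disjoint_left.1 (hdis i' i'.2 i h3) m1 m2
    · exact Finset.disjoint_left.1 (hdis i i.2 i' h3) m2 m1
  exact Finset.prod_image fun i _ i' _ h => hinj h

open Pool.Agent.Helper29L in
/-- **The twists.** -/
theorem twists {𝒟 : Set ℕ} (hD : Pool.Agent.H29C.PRD 𝒟) (N : ℕ) {ε : ℝ} (hε : 0 < ε) : ∃ D : ℕ, 1 ≤ D ∧
    ∀ᶠ X : ℕ in atTop, ({P ∈ pairs X | ¬ ∀ n ≤ N, ∃ d : ℕ, 1 ≤ d ∧ d ≤ D ∧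
      (∀ 𝒞, TwistClosed 𝒟 𝒞 → P ∈ 𝒞 → twist P d ∈ 𝒞) ∧ SelmerDim (twist P d) n}.ncard : ℝ) ≤
        ε * ((pairs X).ncard : ℝ) := by
  obtain ⟨δ, hδ, hδN⟩ : ∃ δ : ℝ, 0 < δ ∧ ∀ n ≤ N, δ ≤ C2 n := by
    obtain ⟨m, hm, hmin⟩ := Finset.exists_min_image (Finset.range (N + 1)) C2
      ⟨0, Finset.mem_range.2 (Nat.succ_pos N)⟩
    exact ⟨C2 m, c2.1 m, fun n hn => hmin n (Finset.mem_range.2 (Nat.lt_succ_of_le hn))⟩
  obtain ⟨k, 𝒬, h8, hdis, hev⟩ := Pool.Agent.H29C.finD hD (lt_min hε hδ)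
  have hD1 : ∀ Q ∈ (Finset.range (k + 1)).biUnion 𝒬, 1 ≤ Q := by
    intro Q hQ
    obtain ⟨i, hi, hQ⟩ := Finset.mem_biUnion.1 hQ
    exact ((h8 i (Finset.mem_range.1 hi)).1 Q hQ).1.one_lt.le
  refine ⟨∏ Q ∈ (Finset.range (k + 1)).biUnion 𝒬, Q, Finset.one_le_prod' hD1, ?_⟩
  filter_upwards [hev] with X hX
  refine le_trans ?_ (hX.trans (mul_le_mul_of_nonneg_right (min_le_left _ _) (Nat.cast_nonneg _)))
  refine Nat.cast_le.2 (Set.ncard_le_ncard (fun P hP => ⟨hP.1, fun hn => hP.2 ?_⟩)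
    ((pairs_fin X).subset fun P hP => hP.1))
  intro n hnN
  obtain ⟨hne, s, hs0, hs⟩ := hn.1
  obtain ⟨j, hj, hjn⟩ : ∃ j : ℕ, (j = k ∨ j = k + 1) ∧ n % 2 = (s + j) % 2 := by
    by_cases h : n % 2 = (s + k) % 2
    · exact ⟨k, Or.inl rfl, h⟩
    · exact ⟨k + 1, Or.inr rfl, by omega⟩
  have hjk : j ≤ k + 1 := by omega
  have h1 := (abs_le.1 (hs j hj {n})).1
  have e0 : (({n} : Set ℕ) ∩ {m | m % 2 = (s + j) % 2}) = {n} := by
    ext m
    constructor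
    · exact fun h => h.1
    · intro h
      rw [Set.mem_singleton_iff.1 h]
      exact ⟨rfl, hjn⟩
  have e : ∑' m, ({n} : Set ℕ).indicator C2 m = C2 n := by
    rw [tsum_eq_single n]
    · exact Set.indicator_of_mem (Set.mem_singleton n) _
    · intro m hm
      exact Set.indicator_of_notMem (fun h => hm (Set.mem_singleton_iff.1 h)) _
  rw [e0, e] at h1
  have h2 := hδN n hnN
  have h3 := min_le_right ε δ
  have h5 : 0 < frac j (lv 𝒬 P) (fun Z => ∃ m ∈ ({n} : Set ℕ),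
      SelDim (Pool.Agent.H30EV.twist P ((∏ Q ∈ Z, Q : ℕ) : ℤ)) m) := by linarith
  obtain ⟨Q, hQ1, hQ2⟩ : ∃ Q ∈ (Fintype.piFinset fun i : Fin j => lv 𝒬 P i),
      ∃ m ∈ ({n} : Set ℕ), SelDim (Pool.Agent.H30EV.twist P
        ((∏ q ∈ Finset.univ.image Q, q : ℕ) : ℤ)) m := by
    by_contra hcon
    push Not at hcon
    unfold frac at h5
    rw [Finset.filter_false_of_mem (fun Q hQ h => by
      obtain ⟨m, hm, h6⟩ := h
      exact hcon Q hQ m hm h6), Finset.card_empty, Nat.cast_zero, zero_div] at h5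
    exact lt_irrefl _ h5
  have hQ3 := Fintype.mem_piFinset.1 hQ1
  obtain ⟨m, hm, hQ4⟩ := hQ2
  rw [Set.mem_singleton_iff.1 hm, prod_eq (fun i hi => hdis i (by omega)) hQ3] at hQ4
  have hmem : ∀ i : Fin j, Q i ∈ 𝒬 i := fun i => (Finset.mem_filter.1 (hQ3 i)).1
  have hik : ∀ i : Fin j, (i : ℕ) < k + 1 := fun i => by
    have := i.2
    omega
  have hprime : ∀ i : Fin j, (Q i).Prime := fun i => ((h8 i (hik i)).1 _ (hmem i)).1
  refine ⟨∏ i, Q i, Finset.prod_pos fun i _ => (hprime i).pos, ?_, fun 𝒞 h𝒞 hP => ?_, hQ4⟩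
  · rw [← prod_eq (fun i hi => hdis i (by omega)) hQ3]
    refine Finset.prod_le_prod_of_subset_of_one_le' ?_ fun q hq _ => hD1 q hq
    intro q hq
    obtain ⟨i, -, rfl⟩ := Finset.mem_image.1 hq
    exact Finset.mem_biUnion.2 ⟨i, Finset.mem_range.2 (hik i), hmem i⟩
  · exact twist_mem h𝒞 hP j Q fun i => ⟨hprime i, (h8 i (hik i)).2 _ (hmem i)⟩

/-- **All twist closed sets.** -/
theorem main {𝒟 : Set ℕ} (h𝒟 : Pool.Agent.H29C.PRD 𝒟) (N : ℕ) {c : ℝ} (hc : 0 < c) : ∃ c' : ℝ, 0 < c' ∧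
    ∀ 𝒞 : Set (ℤ × ℤ), TwistClosed 𝒟 𝒞 → DensityAtLeast c 𝒞 →
      ∀ n ≤ N, DensityAtLeast c' {P | P ∈ 𝒞 ∧ SelmerDim P n} := by
  obtain ⟨D, hD, hev⟩ := twists h𝒟 N (half_pos hc)
  have hD' : (0 : ℝ) < D := by exact_mod_cast hD
  refine ⟨c / 2 / ((D + 1) * (18 * (D : ℝ) ^ 6)), by positivity, fun 𝒞 h𝒞 hdens n hn => ?_⟩
  have ht : Tendsto (fun X : ℕ => X / D ^ 6) atTop atTop :=
    Nat.tendsto_div_const_atTop (pow_ne_zero 6 (by omega))
  filter_upwards [ht.eventually hev, ht.eventually hdens, pairs_div hD] with X h1 h2 h3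
  obtain ⟨T, hT⟩ : ∃ T : ℕ, T = X / D ^ 6 := ⟨_, rfl⟩
  rw [← hT] at h1 h2 h3
  -- the good pairs
  obtain ⟨A, hA⟩ : ∃ A : Set (ℤ × ℤ), A = {P | P ∈ 𝒞 ∩ pairs T ∧ ∃ d : ℕ, 1 ≤ d ∧ d ≤ D ∧
      twist P d ∈ 𝒞 ∧ SelmerDim (twist P d) n} := ⟨_, rfl⟩
  have hAfin : A.Finite := (pairs_fin T).subset fun P hP => by
    rw [hA] at hP
    exact hP.1.2
  have h4 : c / 2 * ((pairs T).ncard : ℝ) ≤ (A.ncard : ℝ) := by
    have h5 : 𝒞 ∩ pairs T ⊆ A ∪ {P ∈ pairs T | ¬ ∀ n ≤ N, ∃ d : ℕ, 1 ≤ d ∧ d ≤ D ∧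
        (∀ 𝒞, TwistClosed 𝒟 𝒞 → P ∈ 𝒞 → twist P d ∈ 𝒞) ∧ SelmerDim (twist P d) n} := by
      intro P hP
      by_cases h : ∀ n ≤ N, ∃ d : ℕ, 1 ≤ d ∧ d ≤ D ∧
        (∀ 𝒞, TwistClosed 𝒟 𝒞 → P ∈ 𝒞 → twist P d ∈ 𝒞) ∧ SelmerDim (twist P d) n
      · left
        rw [hA]
        obtain ⟨d, hd1, hd2, hd3, hd4⟩ := h n hn
        exact ⟨hP, d, hd1, hd2, hd3 𝒞 h𝒞 hP.1, hd4⟩
      · exact Or.inr ⟨hP.2, h⟩
    have h6 := Set.ncard_le_ncard h5 (hAfin.union ((pairs_fin T).subset fun P hP => hP.1))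
    have h7 := h6.trans (Set.ncard_union_le _ _)
    have h8 : ((𝒞 ∩ pairs T).ncard : ℝ) ≤ (A.ncard : ℝ) +
        ({P ∈ pairs T | ¬ ∀ n ≤ N, ∃ d : ℕ, 1 ≤ d ∧ d ≤ D ∧
        (∀ 𝒞, TwistClosed 𝒟 𝒞 → P ∈ 𝒞 → twist P d ∈ 𝒞) ∧ SelmerDim (twist P d) n}.ncard : ℝ) := by
      exact_mod_cast h7
    linarith
  -- the twists
  have hex : ∀ P : ℤ × ℤ, ∃ d : ℕ, P ∈ A → 1 ≤ d ∧ d ≤ D ∧ twist P d ∈ 𝒞 ∧
      SelmerDim (twist P d) n := by
    intro P
    by_cases h : P ∈ A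
    · have h' := h
      rw [hA] at h'
      obtain ⟨d, hd⟩ := h'.2
      exact ⟨d, fun _ => hd⟩
    · exact ⟨0, fun h' => absurd h' h⟩
  choose f hf using hex
  have h9 : A.ncard ≤ (({P | P ∈ 𝒞 ∧ SelmerDim P n} ∩ pairs X) ×ˢ (Set.Iic D)).ncard := by
    refine Set.ncard_le_ncard_of_injOn (fun P => (twist P (f P), f P)) ?_ ?_
      (((pairs_fin X).subset Set.inter_subset_right).prod (Set.finite_Iic D))
    · intro P hP
      obtain ⟨hd1, hd2, hd3, hd4⟩ := hf P hP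
      have hPT : P ∈ pairs (X / D ^ 6) := by
        rw [hA] at hP
        rw [← hT]
        exact hP.1.2
      exact ⟨⟨⟨hd3, hd4⟩, twist_pairs hPT hd1 hd2⟩, hd2⟩
    · intro P hP P' hP' h
      obtain ⟨h10, h11⟩ := Prod.mk.inj h
      have h12 : f P = f P' := h11
      have h13 : twist P (f P) = twist P' (f P') := h10
      rw [← h12] at h13
      exact twist_inj (hf P hP).1 h13
  rw [Set.ncard_prod, Set.ncard_eq_toFinset_card' (Set.Iic D), Set.toFinset_Iic, Nat.card_Iic] at h9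
  have h10 : (A.ncard : ℝ) ≤ (({P | P ∈ 𝒞 ∧ SelmerDim P n} ∩ pairs X).ncard : ℝ) * (D + 1) := by
    exact_mod_cast h9
  have h11 : c / 2 * ((pairs X).ncard : ℝ) ≤ (({P | P ∈ 𝒞 ∧ SelmerDim P n} ∩ pairs X).ncard : ℝ) *
      ((D + 1) * (18 * (D : ℝ) ^ 6)) := by
    calc c / 2 * ((pairs X).ncard : ℝ) ≤ c / 2 * (18 * (D : ℝ) ^ 6 * ((pairs T).ncard : ℝ)) :=
          mul_le_mul_of_nonneg_left h3 (by positivity)
      _ = 18 * (D : ℝ) ^ 6 * (c / 2 * ((pairs T).ncard : ℝ)) := by ring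
      _ ≤ 18 * (D : ℝ) ^ 6 * ((({P | P ∈ 𝒞 ∧ SelmerDim P n} ∩ pairs X).ncard : ℝ) * (D + 1)) :=
          mul_le_mul_of_nonneg_left (h4.trans h10) (by positivity)
      _ = _ := by ring
  have hpos : (0 : ℝ) < (D + 1) * (18 * (D : ℝ) ^ 6) := by positivity
  rw [div_mul_eq_mul_div, div_le_iff₀ hpos]
  exact h11

/-! ### Residue classes -/

theorem class_closed (M : ℕ) (a b : ℤ) (s : SignType) :
    TwistClosed {Q | Q ≡ 1 [MOD M]} (residueClass M a b s) := by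
  rintro P ⟨h1, h2, h3⟩ Q hQM hQ
  have hQz : (Q : ℤ) ≡ 1 [ZMOD M] := by
    have := Int.natCast_modEq_iff.2 hQM
    rwa [Nat.cast_one] at this
  refine ⟨?_, ?_, ?_⟩
  · have := h1.mul (hQz.pow 2)
    rwa [one_pow, mul_one] at this
  · have := h2.mul (hQz.pow 3)
    rwa [one_pow, mul_one] at this
  · have e : 4 * (twist P Q).1 ^ 3 + 27 * (twist P Q).2 ^ 2 =
        (4 * P.1 ^ 3 + 27 * P.2 ^ 2) * (Q : ℤ) ^ 6 := by
      unfold twist
      ring
    have hQ6 : (0 : ℤ) < (Q : ℤ) ^ 6 := pow_pos (by exact_mod_cast hQ.pos) 6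
    rw [e, sign_mul, sign_pos hQ6, mul_one, h3]

theorem floor_half {y : ℝ} (hy : 1 ≤ y) : ∃ K : ℕ, (K : ℝ) ≤ y ∧ y ≤ 2 * K ∧ 1 ≤ K := by
  have h1 : 1 ≤ ⌊y⌋₊ := (Nat.one_le_floor_iff y).2 hy
  refine ⟨⌊y⌋₊, Nat.floor_le (by linarith), ?_, h1⟩
  have h2 := Nat.lt_floor_add_one y
  have h3 : (1 : ℝ) ≤ (⌊y⌋₊ : ℝ) := by exact_mod_cast h1
  linarith

theorem class_low {M : ℕ} (hM : 0 < M) (a b : ℤ) {s : SignType} (hs : s ≠ 0) :
    DensityAtLeast (1 / (8424 * (M : ℝ) ^ 2)) (residueClass M a b s) := by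
  have hM' : (0 : ℝ) < M := by exact_mod_cast hM
  have t1 : Tendsto (fun X : ℕ => (X : ℝ) ^ (1 / 3 : ℝ)) atTop atTop :=
    (tendsto_rpow_atTop (by norm_num)).comp tendsto_natCast_atTop_atTop
  have t2 : Tendsto (fun X : ℕ => (X : ℝ) ^ (1 / 2 : ℝ)) atTop atTop :=
    (tendsto_rpow_atTop (by norm_num)).comp tendsto_natCast_atTop_atTop
  filter_upwards [t1.eventually_ge_atTop (3 * (M : ℝ)), t2.eventually_ge_atTop (78 * (M : ℝ)),
    eventually_ge_atTop 1] with X hX1 hX2 hX3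
  obtain ⟨K, hK1, hK2, hK3⟩ := floor_half (y := (X : ℝ) ^ (1 / 3 : ℝ) / (3 * M))
    ((one_le_div (by positivity)).2 hX1)
  obtain ⟨L, hL1, hL2, hL3⟩ := floor_half (y := (X : ℝ) ^ (1 / 2 : ℝ) / (78 * M))
    ((one_le_div (by positivity)).2 hX2)
  rw [le_div_iff₀ (by positivity)] at hK1 hL1
  rw [div_le_iff₀ (by positivity)] at hK2 hL2
  have hXr : (1 : ℝ) ≤ X := by exact_mod_cast hX3
  have c3 : ((X : ℝ) ^ (1 / 3 : ℝ)) ^ 3 = X := by
    rw [← Real.rpow_natCast, ← Real.rpow_mul (by linarith)]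
    norm_num
  have c2 : ((X : ℝ) ^ (1 / 2 : ℝ)) ^ 2 = X := by
    rw [← Real.rpow_natCast, ← Real.rpow_mul (by linarith)]
    norm_num
  have c56 : (X : ℝ) ^ (1 / 3 : ℝ) * (X : ℝ) ^ (1 / 2 : ℝ) = (X : ℝ) ^ (5 / 6 : ℝ) := by
    rw [← Real.rpow_add (by linarith)]
    norm_num
  have k1 : ((K : ℝ) * (3 * M)) ^ 3 ≤ X := by
    rw [← c3]
    exact pow_le_pow_left₀ (by positivity) hK1 3
  have k2 : (X : ℝ) ≤ (2 * K * (3 * M)) ^ 3 := by
    calc (X : ℝ) = ((X : ℝ) ^ (1 / 3 : ℝ)) ^ 3 := c3.symm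
      _ ≤ _ := pow_le_pow_left₀ (by positivity) hK2 3
  have l1 : ((L : ℝ) * (78 * M)) ^ 2 ≤ X := by
    rw [← c2]
    exact pow_le_pow_left₀ (by positivity) hL1 2
  -- in integers
  have k1' : (K * (3 * M)) ^ 3 ≤ X := by exact_mod_cast k1
  have k2' : X ≤ (2 * K * (3 * M)) ^ 3 := by exact_mod_cast k2
  have l1' : (L * (78 * M)) ^ 2 ≤ X := by exact_mod_cast l1
  obtain ⟨σ, hσ, hσs⟩ : ∃ σ : ℤ, (σ = 1 ∨ σ = -1) ∧ ((s = 1 ∧ σ = 1) ∨ (s = -1 ∧ σ = -1)) := by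
    rcases s with _ | _ | _
    · exact absurd rfl hs
    · exact ⟨-1, Or.inr rfl, Or.inr ⟨rfl, rfl⟩⟩
    · exact ⟨1, Or.inl rfl, Or.inl ⟨rfl, rfl⟩⟩
  have hMz : (0 : ℤ) < M := by exact_mod_cast hM
  have key : (((Finset.Ioc K (2 * K)) ×ˢ (Finset.Icc 1 L) : Finset (ℕ × ℕ)) : Set (ℕ × ℕ)).ncard ≤
      (residueClass M a b s ∩ pairs X).ncard := by
    refine Set.ncard_le_ncard_of_injOn
      (fun q => (a % M + σ * (M * (q.1 : ℤ)), b % M + M * (q.2 : ℤ))) ?_ ?_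
      ((pairs_fin X).subset Set.inter_subset_right)
    · intro q hq
      rw [Finset.mem_coe, Finset.mem_product, Finset.mem_Ioc, Finset.mem_Icc] at hq
      obtain ⟨⟨q1, q2⟩, q3, q4⟩ := hq
      obtain ⟨t, ht⟩ : ∃ t : ℤ, t = (q.1 : ℤ) := ⟨_, rfl⟩
      obtain ⟨u, hu⟩ : ∃ u : ℤ, u = (q.2 : ℤ) := ⟨_, rfl⟩
      have r1 := Int.emod_nonneg a hMz.ne'
      have r2 := Int.emod_lt_of_pos a hMz
      have s1 := Int.emod_nonneg b hMz.ne'
      have s2 := Int.emod_lt_of_pos b hMz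
      have ht1 : (K : ℤ) + 1 ≤ t := by rw [ht]; exact_mod_cast q1
      have ht2 : t ≤ 2 * K := by rw [ht]; exact_mod_cast q2
      have hu1 : 1 ≤ u := by rw [hu]; exact_mod_cast q3
      have hu2 : u ≤ L := by rw [hu]; exact_mod_cast q4
      have hKz : (1 : ℤ) ≤ K := by exact_mod_cast hK3
      have hLz : (1 : ℤ) ≤ L := by exact_mod_cast hL3
      have m1 : (M : ℤ) * (K + 1) ≤ M * t := mul_le_mul_of_nonneg_left ht1 hMz.le
      have m2 : (M : ℤ) * t ≤ M * (2 * K) := mul_le_mul_of_nonneg_left ht2 hMz.le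
      have m3 : (M : ℤ) * 1 ≤ M * K := mul_le_mul_of_nonneg_left hKz hMz.le
      have m4 : (M : ℤ) * u ≤ M * L := mul_le_mul_of_nonneg_left hu2 hMz.le
      have m5 : (M : ℤ) * 1 ≤ M * L := mul_le_mul_of_nonneg_left hLz hMz.le
      have m6 : (M : ℤ) * 1 ≤ M * u := mul_le_mul_of_nonneg_left hu1 hMz.le
      obtain ⟨x, hx⟩ : ∃ x : ℤ, x = a % M + σ * (M * t) := ⟨_, rfl⟩
      obtain ⟨y, hy⟩ : ∃ y : ℤ, y = b % M + M * u := ⟨_, rfl⟩
      show (a % M + σ * (M * (q.1 : ℤ)), b % M + M * (q.2 : ℤ)) ∈ residueClass M a b s ∩ pairs X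
      rw [← ht, ← hu, ← hx, ← hy]
      have hy0 : 0 ≤ y := by rw [hy]; linarith
      have hy1 : y ≤ 2 * (M * L) := by rw [hy]; linarith
      have k2z : (X : ℤ) ≤ (2 * K * (3 * M)) ^ 3 := by exact_mod_cast k2'
      have l1z : ((L : ℤ) * (78 * M)) ^ 2 ≤ X := by exact_mod_cast l1'
      have hXz : (1 : ℤ) ≤ X := by exact_mod_cast hX3
      have hy2 : y ^ 2 ≤ (2 * (M * L)) ^ 2 := pow_le_pow_left₀ hy0 hy1 2
      have hxa : |x| ≤ K * (3 * M) := by
        rcases hσ with h | h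
        · rw [abs_le, hx, h]
          constructor
          · nlinarith
          · nlinarith
        · rw [abs_le, hx, h]
          constructor
          · nlinarith
          · nlinarith
      have hsg : SignType.sign (4 * x ^ 3 + 27 * y ^ 2) = s := by
        rcases hσs with ⟨h1, h2⟩ | ⟨h1, h2⟩
        · have hx0 : 0 < x := by
            rw [hx, h2]
            nlinarith
          rw [h1]
          exact sign_pos (by positivity)
        · have hx0 : (M : ℤ) * K ≤ -x := by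
            rw [hx, h2]
            nlinarith
          have hx3 : ((M : ℤ) * K) ^ 3 ≤ (-x) ^ 3 := pow_le_pow_left₀ (by positivity) hx0 3
          rw [h1]
          refine sign_neg ?_
          have e1 : (2 * (K : ℤ) * (3 * M)) ^ 3 = 216 * (M * K) ^ 3 := by ring
          have e2 : ((L : ℤ) * (78 * M)) ^ 2 = 1521 * (2 * (M * L)) ^ 2 := by ring
          have e3 : (-x) ^ 3 = - x ^ 3 := by ring
          rw [e1] at k2z
          rw [e2] at l1z
          rw [e3] at hx3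
          linarith
      refine ⟨⟨?_, ?_, hsg⟩, ?_, ?_⟩
      · show x ≡ a [ZMOD M]
        rw [hx]
        refine (Int.modEq_iff_dvd.2 ?_)
        have e4 : a - (a % M + σ * (M * t)) = (a - a % M) - M * (σ * t) := by ring
        rw [e4]
        exact dvd_sub (Int.dvd_self_sub_emod) (dvd_mul_right _ _)
      · show y ≡ b [ZMOD M]
        rw [hy]
        refine (Int.modEq_iff_dvd.2 ?_)
        have e4 : b - (b % M + M * u) = (b - b % M) - M * u := by ring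
        rw [e4]
        exact dvd_sub (Int.dvd_self_sub_emod) (dvd_mul_right _ _)
      · show 4 * x ^ 3 + 27 * y ^ 2 ≠ 0
        intro h0
        rw [h0, sign_zero] at hsg
        exact hs hsg.symm
      · show max (x.natAbs ^ 3) (y.natAbs ^ 2) ≤ X
        refine max_le ?_ ?_
        · refine (Nat.pow_le_pow_left (m := K * (3 * M)) ?_ 3).trans k1'
          have : (x.natAbs : ℤ) ≤ K * (3 * M) := by rwa [Int.natCast_natAbs]
          exact_mod_cast this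
        · refine (Nat.pow_le_pow_left (m := L * (78 * M)) ?_ 2).trans l1'
          have : (y.natAbs : ℤ) ≤ L * (78 * M) := by
            rw [Int.natCast_natAbs, abs_of_nonneg hy0]
            nlinarith
          exact_mod_cast this
    · intro q hq q' hq' h
      obtain ⟨h1, h2⟩ := Prod.mk.inj h
      have h3 : σ * (M * (q.1 : ℤ)) = σ * (M * (q'.1 : ℤ)) := add_left_cancel h1
      have h4 : (M : ℤ) * (q.2 : ℤ) = M * (q'.2 : ℤ) := add_left_cancel h2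
      have hσ0 : σ ≠ 0 := by
        rcases hσ with h | h <;> rw [h] <;> norm_num
      have h5 := mul_left_cancel₀ hMz.ne' (mul_left_cancel₀ hσ0 h3)
      have h6 := mul_left_cancel₀ hMz.ne' h4
      exact Prod.ext (by exact_mod_cast h5) (by exact_mod_cast h6)
  rw [Set.ncard_coe_finset, Finset.card_product, Nat.card_Ioc, Nat.card_Icc] at key
  have key2 : (K : ℝ) * L ≤ ((residueClass M a b s ∩ pairs X).ncard : ℝ) := by
    have e5 : (2 * K - K) * (L + 1 - 1) = K * L := by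
      congr 1
      omega
    rw [e5] at key
    exact_mod_cast key
  have hup := pairs_up hX3
  rw [← c56] at hup
  have h7 : (X : ℝ) ^ (1 / 3 : ℝ) * (X : ℝ) ^ (1 / 2 : ℝ) ≤ (2 * K * (3 * M)) * (2 * L * (78 * M)) :=
    mul_le_mul hK2 hL2 (by positivity) (by positivity)
  rw [div_mul_eq_mul_div, one_mul, div_le_iff₀ (by positivity)]
  calc ((pairs X).ncard : ℝ) ≤ 9 * ((2 * K * (3 * M)) * (2 * L * (78 * M))) := by linarith
    _ = (K * L) * (8424 * (M : ℝ) ^ 2) := by ring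
    _ ≤ _ := mul_le_mul_of_nonneg_right key2 (by positivity)

/-- **Every dimension in every class.** (1) All sets of pairs of positive lower density which are closed under the
quadratic twists by the primes of a thick set, uniformly. (2) All residue classes, with the sign. -/
theorem result :
    (∀ 𝒟 : Set ℕ, Thick 𝒟 → ∀ (N : ℕ) (c : ℝ), 0 < c → ∃ c' : ℝ, 0 < c' ∧
      ∀ 𝒞 : Set (ℤ × ℤ), TwistClosed 𝒟 𝒞 → DensityAtLeast c 𝒞 →
        ∀ n ≤ N, DensityAtLeast c' {P | P ∈ 𝒞 ∧ SelmerDim P n}) ∧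
    ∀ (M N : ℕ), 0 < M → ∃ c' : ℝ, 0 < c' ∧ ∀ (a b : ℤ) (s : SignType), s ≠ 0 → ∀ n ≤ N,
      DensityAtLeast c' {P | P ∈ residueClass M a b s ∧ SelmerDim P n} := by
  refine ⟨fun 𝒟 h𝒟 N c hc => main (prd_of h𝒟) N hc, fun M N hM => ?_⟩
  have hM' : (0 : ℝ) < M := by exact_mod_cast hM
  obtain ⟨c', hc', h⟩ := main (prd hM) N (c := 1 / (8424 * (M : ℝ) ^ 2)) (by positivity)
  exact ⟨c', hc', fun a b s hs n hn => h _ (class_closed M a b s) (class_low hM a b hs) n hn⟩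

end Pool.Agent.Results.MP_8cb858_nt.EveryDimensionInEveryClass
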