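import Pool.Agent.Helper29L.Fin1
import Pool.Agent.Helper29L.Lin
import Pool.Agent.Helper29L.Size
import Pool.Agent.Helper29L.LOW10
import Pool.Agent.Helper29L.Up
import Pool.Agent.Helper29L.MK
import Pool.Agent.Helper29L.Lev
import Pool.Agent.Helper29L.Tw
import Pool.Agent.Helper29L.Shell1
import Pool.Agent.Helper29L.Shell2
import Pool.Agent.Helper29L.TV

/-!
# Large families in which the 2-Selmer groups have nearly the distribution of Poonen and Rains

The elliptic curves over `ℚ` are given by the pairs `(a, b)`, `4 a ^ 3 + 27 b ^ 2 ≠ 0`, ordered by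
`H(a, b) = max (|a| ^ 3) (b ^ 2)`. Let `C_{2, n} = ∏_{j ≥ 0} (1 + 2^{-j})⁻¹ ∏_{i = 1}^n 2 / (2 ^ i - 1)`.

Theorem. (1) For every `ε > 0` there is a family `𝓕` of positive lower density such that the distribution of
`dim Sel_2` on `𝓕` differs from `n ↦ C_{2, n}` by at most `ε`: for all large `X` and ALL sets `B` of natural
numbers, the proportion of the curves in `𝓕`, of height at most `X`, with `dim Sel_2 ∈ B` is between
`∑_{n ∈ B} C_{2, n} - ε` and `∑_{n ∈ B} C_{2, n} + ε`. The family is given by congruences: `a > 0`, `(a, b)` modulo `M`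
is in a set `R`, and `p ^ 2` does not divide `4 a ^ 3 + 27 b ^ 2` for all primes `p` which do not divide `M` (it is
large in the sense of Bhargava and Shankar, who proved that the average of `|Sel_2|` is `3` in all
such families).

(2) For EVERY `n ≥ 0` a positive proportion of all elliptic curves over `ℚ` has `dim Sel_2 = n`.

Proof. The members of `𝓕` are the twists `E^{(d)}` of the curves of a family `𝓕₀` (squarefree
discriminant and given residues modulo the primes in a finite set `S`) by the products `d` of certain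
sets of primes of `S`. These primes are `1` modulo `8`; modulo `Q ∈ S` the cubic `x ^ 3 + a x + b` of the
members of `𝓕₀` is `x` times an irreducible quadratic polynomial. (a) All the local conditions are known,
and the 2-Selmer groups of all the twists by `∏_{Q ∈ Z} Q`, `Z ⊆ S`, are the intersections of one maximal
isotropic subspace `V` (the classes which are relaxed at `S`) of `F_2 ^ {2 |S|}` (a hyperbolic plane for
every `Q ∈ S`) with the coordinate subspaces `W_Z`. So `dim Sel(Z ∪ {q})` is `dim Sel(Z) + 1` if all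
the classes in `Sel(Z)` are trivial at `q`, and `dim Sel(Z) - 1` if not. (b) By the parametrisation of
2-coverings by integral binary quartic forms, and by counting these forms in Siegel domains, with local
conditions at all the primes of `S`, for every pattern `S → {trivial, not trivial}` the number of the curves
in `𝓕₀` which have a nontrivial class in `Sel(Z)` with this pattern is at most `C(Z) 2 ^ (-|S|)` times the
number of all curves in `𝓕₀`. By a large deviation estimate, for nearly all curves in `𝓕₀` all nontrivial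
classes of the groups `Sel(Z)`, `Z` contained in the first levels of `S`, are trivial at nearly one half of
the primes of the next level (which is much larger). (c) So if the primes in `d` are chosen at random,
one in each level, `dim Sel_2` is nearly a Markov chain which goes from `n` to `n + 1` with the
probability `2 ^ (-n)` and to `n - 1` with the probability `1 - 2 ^ (-n)`. Its distribution converges on each
parity class to `2 C_{2, n}`. (d) The number of primes in `d` is `k + 1` or `k + 2`, with the same number of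
`d`s, which gives both parities the same weight, and all the `d`s lie in one short window, so that the
curves `E^{(d)}`, ordered by height, are nearly equally distributed over the `d`s.

Written with helper30, helper90, helper28, helper24, helper52, helper61, helper23 (the files of
`Pool/Agent/Helper29L`), on the library of the projects named in their headers.
-/

set_option autoImplicit false
set_option linter.all false

namespace Pool.Agent.Results.MP_8cb858_nt.FamiliesNearPoonenRains

open Filter
open Pool.Agent.H30EV (curve)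
open Pool.Agent.H30GR (Sel2)

/-- The height `H(a, b) = max (|a| ^ 3) (|b| ^ 2)`. -/
def height (P : ℤ × ℤ) : ℕ := max (P.1.natAbs ^ 3) (P.2.natAbs ^ 2)

/-- All pairs `(a, b)` of integers with `4 a ^ 3 + 27 b ^ 2 ≠ 0` and `H(a, b) ≤ X`. -/
def pairs (X : ℕ) : Set (ℤ × ℤ) := {P | 4 * P.1 ^ 3 + 27 * P.2 ^ 2 ≠ 0 ∧ height P ≤ X}

/-- The set `𝓕` has positive lower density among all pairs, ordered by height. -/
def PositiveLowerDensity (𝓕 : Set (ℤ × ℤ)) : Prop :=
  ∃ c : ℝ, 0 < c ∧ ∀ᶠ X : ℕ in atTop, c * ((pairs X).ncard : ℝ) ≤ ((𝓕 ∩ pairs X).ncard : ℝ)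

/-- The 2-Selmer group over `ℚ` of `y ^ 2 = x ^ 3 + a x + b`, `P = (a, b)`, has dimension `n`. -/
def SelmerDim (P : ℤ × ℤ) (n : ℕ) : Prop :=
  Finite (Sel2 (curve ℚ P)) ∧ Nat.card (Sel2 (curve ℚ P)) = 2 ^ n

/-- The number `C_{2, n}` of Poonen and Rains. -/
noncomputable def poonenRains (n : ℕ) : ℝ :=
  (∏' j : ℕ, (1 + (1 / 2 : ℝ) ^ j))⁻¹ * ∏ i ∈ Finset.Icc 1 n, (2 : ℝ) / (2 ^ i - 1)

/-- The family given by the set `R` of pairs of classes modulo `M`. -/
def family (M : ℕ) (R : Set (ZMod M × ZMod M)) : Set (ℤ × ℤ) :=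
  {P | 0 < P.1 ∧ (((P.1 : ℤ) : ZMod M), ((P.2 : ℤ) : ZMod M)) ∈ R ∧
    ∀ p : ℕ, p.Prime → ¬ p ∣ M → ¬ (p : ℤ) ^ 2 ∣ 4 * P.1 ^ 3 + 27 * P.2 ^ 2}

/-- The distribution of the dimensions of the 2-Selmer groups in `𝓕`, ordered by height, differs from
the one of Poonen and Rains by at most `ε`, for all large heights and uniformly for all sets `B`. -/
def NearPoonenRains (ε : ℝ) (𝓕 : Set (ℤ × ℤ)) : Prop :=
  ∀ᶠ X : ℕ in atTop, ∀ B : Set ℕ,
    |({P : ℤ × ℤ | P ∈ 𝓕 ∩ pairs X ∧ ∃ n ∈ B, SelmerDim P n}.ncard : ℝ) -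
      (∑' n, B.indicator poonenRains n) * ((𝓕 ∩ pairs X).ncard : ℝ)| ≤
    ε * ((𝓕 ∩ pairs X).ncard : ℝ)

open Pool.Agent.Helper29L in
theorem main {ε : ℝ} (hε : 0 < ε) : ∃ (M : ℕ) (R : Set (ZMod M × ZMod M)), 0 < M ∧
    (∀ P ∈ family M R, 4 * P.1 ^ 3 + 27 * P.2 ^ 2 ≠ 0) ∧
    PositiveLowerDensity (family M R) ∧ NearPoonenRains ε (family M R) := by
  obtain ⟨M, R, c, hM, hc, hmem, hev⟩ := fin1 tot lowb tw1 tw2
    (fun ε hε => main1 NNL.pbad lin2 size slow sup c2 tv lev win lowb (shell lowb) tw1 hε) hε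
  have hset : ∀ X : ℕ, family M R ∩ pairs X = {P : ℤ × ℤ | P ∈ Fam M R ∧ hgt P ≤ X} := by
    intro X
    ext P
    exact ⟨fun h => ⟨h.1, h.2.2⟩, fun h => ⟨h.1, (hmem P h.1).disc, h.2⟩⟩
  refine ⟨M, R, hM, fun P hP => (hmem P hP).disc, ⟨c, hc, ?_⟩, ?_⟩
  · filter_upwards [hev] with X hX
    rw [hset]
    refine le_trans (mul_le_mul_of_nonneg_left ?_ hc.le) hX.1
    exact_mod_cast Set.ncard_le_ncard
      (show pairs X ⊆ {p : ℤ × ℤ | hgt p ≤ X} from fun P hP => hP.2) (fin_hgt X)
  · filter_upwards [hev] with X hX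
    intro B
    have h1 := hX.2 B
    rw [hset]
    have e : {P : ℤ × ℤ | P ∈ {P : ℤ × ℤ | P ∈ Fam M R ∧ hgt P ≤ X} ∧ ∃ n ∈ B, SelmerDim P n} =
        {P : ℤ × ℤ | P ∈ Fam M R ∧ hgt P ≤ X ∧ ∃ n ∈ B, SelDim P n} := by
      ext P
      exact and_assoc
    rw [e]
    exact h1

/-- **Families near the distribution of Poonen and Rains.** -/
theorem result :
    (∀ ε : ℝ, 0 < ε → ∃ (M : ℕ) (R : Set (ZMod M × ZMod M)), 0 < M ∧
      (∀ P ∈ family M R, 4 * P.1 ^ 3 + 27 * P.2 ^ 2 ≠ 0) ∧
      PositiveLowerDensity (family M R) ∧ NearPoonenRains ε (family M R)) ∧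
    ∀ n : ℕ, PositiveLowerDensity {P : ℤ × ℤ | SelmerDim P n} := by
  refine ⟨fun ε hε => main hε, fun n => ?_⟩
  have hpos : 0 < poonenRains n := Pool.Agent.Helper29L.c2.1 n
  obtain ⟨M, R, hM, hd, ⟨c, hc, hlow⟩, hnear⟩ := main (half_pos hpos)
  refine ⟨c * (poonenRains n / 2), by positivity, ?_⟩
  filter_upwards [hlow, hnear] with X h1 h2
  have h3 := (abs_le.1 (h2 {n})).1
  have e : ∑' m, ({n} : Set ℕ).indicator poonenRains m = poonenRains n := by
    rw [tsum_eq_single n]
    · exact Set.indicator_of_mem (Set.mem_singleton n) _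
    · intro m hm
      exact Set.indicator_of_notMem (fun h => hm (Set.mem_singleton_iff.1 h)) _
  rw [e] at h3
  have hfin : (pairs X).Finite := (Pool.Agent.Helper29L.fin_hgt X).subset fun P hP => hP.2
  have h4 : ({P : ℤ × ℤ | P ∈ family M R ∩ pairs X ∧ ∃ m ∈ ({n} : Set ℕ), SelmerDim P m}.ncard : ℝ) ≤
      (({P : ℤ × ℤ | SelmerDim P n} ∩ pairs X).ncard : ℝ) := by
    exact_mod_cast Set.ncard_le_ncard (fun P hP => by
      obtain ⟨h5, m, hm, h6⟩ := hP
      rw [Set.mem_singleton_iff.1 hm] at h6
      exact ⟨h6, h5.2⟩) (hfin.subset Set.inter_subset_right)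
  calc c * (poonenRains n / 2) * ((pairs X).ncard : ℝ)
      = poonenRains n / 2 * (c * ((pairs X).ncard : ℝ)) := by ring
    _ ≤ poonenRains n / 2 * ((family M R ∩ pairs X).ncard : ℝ) :=
        mul_le_mul_of_nonneg_left h1 (by positivity)
    _ ≤ _ := by linarith

end Pool.Agent.Results.MP_8cb858_nt.FamiliesNearPoonenRains
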