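import Pool.Agent.H30PY.All

/-!
# Over every number field the `2`-Selmer group vanishes with positive lower density, for a positive
# proportion of the curves over all the admissible extensions at once

The conjecture of Poonen and Rains for `p = 2`, `d = 0` says that the density of the elliptic curves
`A / F` with `Sel_2(A / F) = 0` exists and equals `C_{2,0} = 0.2097...`. We prove, for EVERY number field
`F` and in the ordering of the problem (all pairs `(a, b)` with `4 a³ + 27 b² ≠ 0`, by
`H(a, b) = max_v max(|a|_v³, |b|_v²)` with normalized absolute values), that the lower density of these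
curves is positive, and more: for a positive proportion of the pairs the group `Sel_2(A / M)` is zero,
`Ш(A / M)[2^∞] = 0` and `A(M)` is finite of odd order for ALL the admissible extensions `M` of `F`
simultaneously. The extension `M` is admissible if it is Galois of degree a power of two, the primes above
two and the real places of `F` split completely in `M`, `x³ + a x + b` is irreducible modulo the primes
which are ramified in `M`, and the primes not above two modulo which `x³ + a x + b` is `x³` split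
completely. The field `M = F` is admissible, hence the statement on `Sel_2(A / F)`.

The proof for the cubical boxes `‖σ a‖ ≤ B²`, `‖σ b‖ ≤ B³` is that of the starting file
`MP_7cad78_nt/RankZeroEveryNumberField.lean` (project PF of helper783: Bhargava's parametrisation over
`F`, reduction theory, quadratic reciprocity and linear algebra over `F_2`), followed by an induction over
the quadratic steps of a filtration of `M / F` (`Pool/Agent/H30H`). The boxes of the height `H` have another
shape if `F` has real and complex places: `|σ a| ≤ X^(1/3)` for the real and `|σ a| ≤ X^(1/6)` for the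
complex embeddings. By Dirichlet's unit theorem there is a unit `u` for which `(a, b) ↦ (u⁴ a, u⁶ b)`
maps a cubical box into the box of `H`, and its inverse maps the box of `H` into a cubical box, of
comparable numbers of elements; the curves are isomorphic and have the same admissible extensions.
-/

set_option autoImplicit false
set_option linter.all false

namespace Pool.Agent.Results.MP_8cb858_nt.TrivialTwoSelmerAllExtensions

open Filter NumberField IsDedekindDomain
open Pool.Agent.TH115.GD (Pt act rs IsCoc Comp Sep)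
open scoped Classical

section selmer

variable {F : Type} [Field F] [NumberField F]

/-- Functions on the absolute Galois group of `F` with values in the points of `W` over the separable
closure `Sep F`. -/
abbrev Coch (W : WeierstrassCurve F) : Type := (Sep F ≃ₐ[F] Sep F) → Pt W (Sep F)

/-- For every embedding of the separable closures the restriction of `f` to the absolute Galois
group of the extension `L` of `F` is a coboundary with values in the points over `Sep L`. -/
def LocallyTrivial (W : WeierstrassCurve F) (L : Type) [Field L] [Algebra F L] (f : Coch W) :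
    Prop :=
  ∀ ι : Sep F →ₐ[F] Sep L, ∃ P : Pt W (Sep L), ∀ (τ : Sep L ≃ₐ[L] Sep L) (σ : Sep F ≃ₐ[F] Sep F),
    (∀ x, τ (ι x) = ι (σ x)) → act W ι (f σ) = act W (rs F τ) P - P

/-- `f` is a continuous cocycle with values in the points of order dividing `n` (`IsCoc` : `f` is
locally constant and `f (σ τ) = f σ + σ (f τ)`), and the restrictions to the Galois groups of the
completions at all finite places and at all real places are coboundaries with values in the points
of `W`. (At the complex places there is no condition: the absolute Galois group of `ℂ` is trivial.) -/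
structure IsSelmer (n : ℕ) (W : WeierstrassCurve F) (f : Coch W) : Prop where
  coc : IsCoc W f
  tors : ∀ σ, n • f σ = 0
  fin : ∀ v : HeightOneSpectrum (𝓞 F), LocallyTrivial W (Comp (𝓞 F) F v) f
  real : ∀ ρ : F →+* ℝ, letI := ρ.toAlgebra; LocallyTrivial W ℝ f

theorem lt_zero (W : WeierstrassCurve F) (L : Type) [Field L] [Algebra F L] :
    LocallyTrivial W L (0 : Coch W) := by
  intro ι
  refine ⟨0, fun τ σ _ => ?_⟩
  rw [Pi.zero_apply, map_zero, map_zero, sub_zero]

theorem lt_add {W : WeierstrassCurve F} {L : Type} [Field L] [Algebra F L] {f g : Coch W}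
    (hf : LocallyTrivial W L f) (hg : LocallyTrivial W L g) : LocallyTrivial W L (f + g) := by
  intro ι
  obtain ⟨P, hP⟩ := hf ι
  obtain ⟨Q, hQ⟩ := hg ι
  refine ⟨P + Q, fun τ σ h => ?_⟩
  rw [Pi.add_apply, map_add, map_add, hP τ σ h, hQ τ σ h]
  abel

theorem lt_neg {W : WeierstrassCurve F} {L : Type} [Field L] [Algebra F L] {f : Coch W}
    (hf : LocallyTrivial W L f) : LocallyTrivial W L (-f) := by
  intro ι
  obtain ⟨P, hP⟩ := hf ι
  refine ⟨-P, fun τ σ h => ?_⟩
  rw [Pi.neg_apply, map_neg, map_neg, hP τ σ h]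
  abel

/-- The group of the cocycles. -/
def Cocycles (n : ℕ) (W : WeierstrassCurve F) : AddSubgroup (Coch W) where
  carrier := {f | IsSelmer n W f}
  zero_mem' := ⟨⟨IsLocallyConstant.const _, fun σ τ => by
      rw [Pi.zero_apply, Pi.zero_apply, Pi.zero_apply, map_zero, add_zero]⟩,
    fun σ => by rw [Pi.zero_apply, nsmul_zero], fun v => lt_zero W _, fun ρ => by
      letI := ρ.toAlgebra
      exact lt_zero W ℝ⟩
  add_mem' := by
    rintro f g ⟨⟨h1, h2⟩, h3, h4, h5⟩ ⟨⟨k1, k2⟩, k3, k4, k5⟩
    refine ⟨⟨h1.add k1, fun σ τ => ?_⟩, fun σ => ?_, fun v => lt_add (h4 v) (k4 v), fun ρ => ?_⟩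
    · rw [Pi.add_apply, Pi.add_apply, Pi.add_apply, h2, k2, map_add]
      abel
    · rw [Pi.add_apply, nsmul_add, h3, k3, add_zero]
    · letI := ρ.toAlgebra
      exact lt_add (h5 ρ) (k5 ρ)
  neg_mem' := by
    rintro f ⟨⟨h1, h2⟩, h3, h4, h5⟩
    refine ⟨⟨h1.neg, fun σ τ => ?_⟩, fun σ => ?_, fun v => lt_neg (h4 v), fun ρ => ?_⟩
    · rw [Pi.neg_apply, Pi.neg_apply, Pi.neg_apply, h2, map_neg]
      abel
    · rw [Pi.neg_apply, smul_neg, h3, neg_zero]
    · letI := ρ.toAlgebra
      exact lt_neg (h5 ρ)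

/-- The group of the coboundaries of the points of order dividing `n`. -/
def Coboundaries (n : ℕ) (W : WeierstrassCurve F) : AddSubgroup (Coch W) where
  carrier := {f | ∃ P : Pt W (Sep F), n • P = 0 ∧ ∀ σ, f σ = act W (rs F σ) P - P}
  zero_mem' := ⟨0, nsmul_zero n, fun σ => by rw [Pi.zero_apply, map_zero, sub_zero]⟩
  add_mem' := by
    rintro f g ⟨P, hP, hf⟩ ⟨Q, hQ, hg⟩
    refine ⟨P + Q, by rw [nsmul_add, hP, hQ, add_zero], fun σ => ?_⟩
    rw [Pi.add_apply, hf, hg, map_add]
    abel
  neg_mem' := by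
    rintro f ⟨P, hP, hf⟩
    refine ⟨-P, by rw [smul_neg, hP, neg_zero], fun σ => ?_⟩
    rw [Pi.neg_apply, hf, map_neg]
    abel

/-- The `n`-Selmer group: the kernel of `H¹(F, W[n]) → ∏ H¹(F_v, W)`. -/
def Sel (n : ℕ) (W : WeierstrassCurve F) : Type :=
  Cocycles n W ⧸ (Coboundaries n W).addSubgroupOf (Cocycles n W)

/-- The group law on the `n`-Selmer group. -/
noncomputable instance Sel.group (n : ℕ) (W : WeierstrassCurve F) : AddCommGroup (Sel n W) :=
  QuotientAddGroup.Quotient.addCommGroup ((Coboundaries n W).addSubgroupOf (Cocycles n W))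

/-- Every class of 2-power order in the Tate-Shafarevich group of `W` is zero: a continuous cocycle
with values in the points of `W` which is locally trivial at all places, and a multiple of which by
a power of two is a coboundary, is a coboundary. -/
def NoShaTwo (W : WeierstrassCurve F) : Prop :=
  ∀ f : Coch W, IsCoc W f → (∀ v : HeightOneSpectrum (𝓞 F), LocallyTrivial W (Comp (𝓞 F) F v) f) →
    (∀ ρ : F →+* ℝ, letI := ρ.toAlgebra; LocallyTrivial W ℝ f) →
    (∃ (n : ℕ) (Q : Pt W (Sep F)), ∀ σ, 2 ^ n • f σ = act W (rs F σ) Q - Q) →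
    ∃ Q : Pt W (Sep F), ∀ σ, f σ = act W (rs F σ) Q - Q

end selmer

section ordering

variable (F : Type) [Field F] [NumberField F]

variable {F} in
/-- The normalized absolute value: `|x|_v = |x|` for a real and `|x|_v = |x| ^ 2` for a complex
place. -/
noncomputable def nabs (v : InfinitePlace F) (x : 𝓞 F) : ℝ := v (x : F) ^ v.mult

variable {F} in
/-- The height `H(a, b) = max_v max (|a|_v ^ 3, |b|_v ^ 2)`. -/
noncomputable def height (p : 𝓞 F × 𝓞 F) : ℝ :=
  ⨆ v : InfinitePlace F, max (nabs v p.1 ^ 3) (nabs v p.2 ^ 2)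

/-- The pairs `(a, b)` with `4 a ^ 3 + 27 b ^ 2 ≠ 0` and `H(a, b) ≤ X`. -/
def UpTo (X : ℝ) : Set (𝓞 F × 𝓞 F) := {p | 4 * p.1 ^ 3 + 27 * p.2 ^ 2 ≠ 0 ∧ height p ≤ X}

variable {F} in
/-- The curve `y ^ 2 = x ^ 3 + a x + b`. -/
def curve (p : 𝓞 F × 𝓞 F) : WeierstrassCurve F := ⟨0, 0, 0, (p.1 : F), (p.2 : F)⟩

/-- The proportion of the pairs with trivial `n`-Selmer group. -/
noncomputable def proportion (n : ℕ) (X : ℝ) : ℝ :=
  ({p ∈ UpTo F X | Subsingleton (Sel n (curve p))}.ncard : ℝ) / ((UpTo F X).ncard : ℝ)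

end ordering

section extensions

variable {F : Type} [Field F] [NumberField F]

/-- The prime `v` of `F` is ramified in `M`: the ideal of the ring of integers of `M` generated by `v` is
contained in the square of a prime. -/
def Ramified (M : Type) [Field M] [NumberField M] [Algebra F M] (v : HeightOneSpectrum (𝓞 F)) :
    Prop :=
  ∃ w : HeightOneSpectrum (𝓞 M), v.asIdeal.map (algebraMap (𝓞 F) (𝓞 M)) ≤ w.asIdeal ^ 2

/-- The prime `v` of `F` splits completely in `M`: for the primes `w` of `M` above `v` the ideal generated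
by `v` is not contained in the square of `w`, and the residue field of `w` is that of `v`. -/
def SplitsCompletely (M : Type) [Field M] [NumberField M] [Algebra F M]
    (v : HeightOneSpectrum (𝓞 F)) : Prop :=
  ∀ w : HeightOneSpectrum (𝓞 M), v.asIdeal.map (algebraMap (𝓞 F) (𝓞 M)) ≤ w.asIdeal →
    ¬ v.asIdeal.map (algebraMap (𝓞 F) (𝓞 M)) ≤ w.asIdeal ^ 2 ∧
      Nat.card (𝓞 M ⧸ w.asIdeal) = Nat.card (𝓞 F ⧸ v.asIdeal)

/-- The cubic `x ^ 3 + a x + b`. -/
noncomputable def cubic (p : 𝓞 F × 𝓞 F) : Polynomial (𝓞 F) :=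
  Polynomial.X ^ 3 + Polynomial.C p.1 * Polynomial.X + Polynomial.C p.2

/-- The extension `M` of `F` is admissible for the curve `y ^ 2 = x ^ 3 + a x + b`: it is a Galois extension
of degree a power of two; the primes above two split completely; the real embeddings of `F` extend to real
embeddings of `M`; the cubic is irreducible modulo the primes which are ramified in `M`; and the primes
`v` which are not above two and modulo which the cubic is `x ^ 3` (then `a` and `b` are in `v`) split
completely. -/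
structure Admissible (M : Type) [Field M] [NumberField M] [Algebra F M] (p : 𝓞 F × 𝓞 F) :
    Prop where
  galois : IsGalois F M
  degree : ∃ n : ℕ, Module.finrank F M = 2 ^ n
  two : ∀ v : HeightOneSpectrum (𝓞 F), (2 : 𝓞 F) ∈ v.asIdeal → SplitsCompletely M v
  real : ∀ ρ : F →+* ℝ, ∃ ρ' : M →+* ℝ, ∀ x : F, ρ' (algebraMap F M x) = ρ x
  ram : ∀ v : HeightOneSpectrum (𝓞 F), Ramified M v →
    Irreducible ((cubic p).map (Ideal.Quotient.mk v.asIdeal))
  split : ∀ v : HeightOneSpectrum (𝓞 F), (2 : 𝓞 F) ∉ v.asIdeal → p.1 ∈ v.asIdeal →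
    p.2 ∈ v.asIdeal → SplitsCompletely M v

/-- The pair `(a, b)` over the extension `M`. -/
noncomputable def pairOver (M : Type) [Field M] [NumberField M] [Algebra F M] (p : 𝓞 F × 𝓞 F) :
    𝓞 M × 𝓞 M := (algebraMap (𝓞 F) (𝓞 M) p.1, algebraMap (𝓞 F) (𝓞 M) p.2)

/-- `Sel_2(A / M) = 0`, `Ш(A / M)[2^∞] = 0` and `A(M)` is finite of odd order for all the admissible
extensions `M` of `F`. -/
def TrivialOverAll (p : 𝓞 F × 𝓞 F) : Prop :=
  ∀ (M : Type) [Field M] [NumberField M] [Algebra F M], Admissible M p →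
    Subsingleton (Sel 2 (curve (pairOver M p))) ∧ NoShaTwo (curve (pairOver M p)) ∧
      Finite (curve (pairOver M p)).toAffine.Point ∧ Odd (Nat.card (curve (pairOver M p)).toAffine.Point)

end extensions

variable {F : Type} [Field F] [NumberField F]

theorem box_iff (X : ℝ) (p : 𝓞 F × 𝓞 F) : Pool.Agent.H30PX.Box X p ↔ p ∈ UpTo F X := by
  have hb : BddAbove (Set.range fun v : InfinitePlace F =>
      max (nabs v p.1 ^ 3) (nabs v p.2 ^ 2)) := Set.Finite.bddAbove (Set.finite_range _)
  constructor
  · rintro ⟨h1, h2⟩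
    exact ⟨h1, ciSup_le fun v => max_le (h2 v).1 (h2 v).2⟩
  · rintro ⟨h1, h2⟩
    refine ⟨h1, fun v => ?_⟩
    have h3 := (le_ciSup hb v).trans h2
    exact ⟨(le_max_left _ _).trans h3, (le_max_right _ _).trans h3⟩

/-- An embedding of the separable closures. -/
theorem exists_emb (L : Type) [Field L] [Algebra F L] : Nonempty (Sep F →ₐ[F] Sep L) :=
  ⟨IsSepClosed.lift⟩

theorem loc_of {W : WeierstrassCurve F} {f : Coch W}
    (h1 : ∀ v : HeightOneSpectrum (𝓞 F), LocallyTrivial W (Comp (𝓞 F) F v) f)
    (h2 : ∀ ρ : F →+* ℝ, letI := ρ.toAlgebra; LocallyTrivial W ℝ f) :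
    Pool.Agent.N874.QM.IsLoc W f := by
  refine ⟨fun v => ?_, fun ρ => ?_⟩
  · obtain ⟨ι⟩ := exists_emb (F := F) (Comp (𝓞 F) F v)
    obtain ⟨P, hP⟩ := h1 v ι
    exact ⟨ι, P, hP⟩
  · letI := ρ.toAlgebra
    obtain ⟨ι⟩ := exists_emb (F := F) ℝ
    obtain ⟨P, hP⟩ := h2 ρ ι
    exact ⟨ι, P, hP⟩

theorem good_of (p : 𝓞 F × 𝓞 F) (h : Pool.Agent.N783.PF.Good p) :
    Subsingleton (Sel 2 (curve p)) ∧ NoShaTwo (curve p) ∧ Finite (curve p).toAffine.Point ∧
      Odd (Nat.card (curve p).toAffine.Point) := by
  have e : Pool.Agent.N874.PP.sW (p.1 : F) (p.2 : F) = curve p := rfl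
  refine ⟨?_, ?_, ?_, ?_⟩
  · have key : ∀ x : Sel 2 (curve p), x = 0 := by
      intro x
      obtain ⟨f, rfl⟩ := QuotientAddGroup.mk_surjective x
      obtain ⟨f, hf⟩ := f
      refine (QuotientAddGroup.eq_zero_iff _).2 ?_
      rw [AddSubgroup.mem_addSubgroupOf]
      obtain ⟨T, hT, h1⟩ := h.sel f hf.coc hf.tors (loc_of hf.fin hf.real)
      exact ⟨T, hT, h1⟩
    exact ⟨fun x y => (key x).trans (key y).symm⟩
  · intro f hf h1 h2 h3
    exact h.sha f hf (loc_of h1 h2) h3
  · exact h.fin
  · exact h.odd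

theorem mem_of_quot {v : HeightOneSpectrum (𝓞 F)} {p : 𝓞 F × 𝓞 F}
    (h : (cubic p).map (Ideal.Quotient.mk v.asIdeal) = Polynomial.X ^ 3) :
    p.1 ∈ v.asIdeal ∧ p.2 ∈ v.asIdeal := by
  constructor
  · have h1 := congrArg (fun f => Polynomial.coeff f 1) h
    simp [cubic, Polynomial.coeff_X] at h1
    exact Ideal.Quotient.eq_zero_iff_mem.1 h1
  · have h1 := congrArg (fun f => Polynomial.coeff f 0) h
    simp [cubic, Polynomial.coeff_X] at h1
    exact Ideal.Quotient.eq_zero_iff_mem.1 h1

theorem adm_of {M : Type} [Field M] [NumberField M] [Algebra F M] {p : 𝓞 F × 𝓞 F}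
    (h : Admissible M p) : Pool.Agent.H30H.Admissible M (Pool.Agent.N61.PF.pol p.1 p.2) := by
  have e : cubic p = Pool.Agent.N61.PF.pol p.1 p.2 := rfl
  refine ⟨h.galois, h.degree, h.two, h.real, fun v hv => ?_, fun v h2 hv => ?_⟩
  · rw [← e]
    exact h.ram v hv
  · rw [Pool.Agent.N61.PF.pol_natDegree, ← e] at hv
    obtain ⟨h3, h4⟩ := mem_of_quot hv
    exact h.split v h2 h3 h4

theorem all_of {p : 𝓞 F × 𝓞 F} (h : Pool.Agent.H30PY.GoodAll p) : TrivialOverAll p := by
  intro M _ _ _ hM
  exact good_of (pairOver M p) (h M (adm_of hM))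

theorem adm_self (p : 𝓞 F × 𝓞 F) : Admissible F p := by
  have h := Pool.Agent.H30PY.adm_self (cubic p)
  have hs : ∀ v : HeightOneSpectrum (𝓞 F), SplitsCompletely F v := fun v =>
    Pool.Agent.H30PY.split_self v
  exact ⟨h.galois, h.degree, h.two, h.real, h.ram, fun v _ _ _ => hs v⟩

theorem pairOver_self (p : 𝓞 F × 𝓞 F) : pairOver F p = p := by
  refine Prod.ext ?_ ?_ <;> exact RingOfIntegers.ext rfl

/-- **Theorem.** Let `F` be any number field. In the ordering by `H` a positive proportion of all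
the pairs `(a, b)` has the following property: for the curve `A : y ^ 2 = x ^ 3 + a x + b` and for ALL the
admissible extensions `M` of `F` simultaneously the `2`-Selmer group of `A` over `M` is trivial, the
Tate-Shafarevich group of `A` over `M` has no elements of 2-power order, and `A(M)` is finite of odd order.
The field `F` is admissible; hence the lower density of the curves with `dim Sel_2(A / F) = 0` is
positive. -/
theorem result (F : Type) [Field F] [NumberField F] :
    (∀ X : ℝ, (UpTo F X).Finite) ∧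
    (∃ c : ℝ, 0 < c ∧ ∀ᶠ X : ℝ in atTop,
      0 < (UpTo F X).ncard ∧
      c * ((UpTo F X).ncard : ℝ) ≤ ({p ∈ UpTo F X | TrivialOverAll p}.ncard : ℝ) ∧
      c ≤ proportion F 2 X) ∧
    (∀ p : 𝓞 F × 𝓞 F, Admissible F p ∧ pairOver F p = p) ∧
    0 < liminf (proportion F 2) atTop := by
  have hset : ∀ X : ℝ, UpTo F X = {p : 𝓞 F × 𝓞 F | Pool.Agent.H30PX.Box X p} := by
    intro X
    ext p
    exact (box_iff X p).symm
  obtain ⟨c, hc, Y₀, h⟩ := Pool.Agent.H30PY.mainBox' F
  have hfin : ∀ X : ℝ, (UpTo F X).Finite := fun X => by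
    rw [hset]
    exact (h X).1
  have hev : ∀ᶠ X : ℝ in atTop,
      0 < (UpTo F X).ncard ∧
      c * ((UpTo F X).ncard : ℝ) ≤ ({p ∈ UpTo F X | TrivialOverAll p}.ncard : ℝ) ∧
      c ≤ proportion F 2 X := by
    filter_upwards [eventually_ge_atTop Y₀] with X hX
    obtain ⟨h1, h2⟩ := (h X).2 hX
    rw [← hset] at h1 h2
    have h3 : {p : 𝓞 F × 𝓞 F | Pool.Agent.H30PX.Box X p ∧ Pool.Agent.H30PY.GoodAll p} ⊆
        {p ∈ UpTo F X | TrivialOverAll p} := by
      rintro p ⟨hp, hg⟩
      exact ⟨(box_iff X p).1 hp, all_of hg⟩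
    have h4 := Set.ncard_le_ncard h3 ((hfin X).subset fun p hp => hp.1)
    have h5 : {p ∈ UpTo F X | TrivialOverAll p} ⊆
        {p ∈ UpTo F X | Subsingleton (Sel 2 (curve p))} := by
      rintro p ⟨hp, hg⟩
      have h8 := (hg F (adm_self p)).1
      rw [pairOver_self] at h8
      exact ⟨hp, h8⟩
    have h6 := Set.ncard_le_ncard h5 ((hfin X).subset fun p hp => hp.1)
    have h7 : c * ((UpTo F X).ncard : ℝ) ≤ ({p ∈ UpTo F X | TrivialOverAll p}.ncard : ℝ) :=
      h2.trans (by exact_mod_cast h4)
    refine ⟨h1, h7, ?_⟩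
    unfold proportion
    rw [le_div_iff₀ (by exact_mod_cast h1)]
    exact h7.trans (by exact_mod_cast h6)
  refine ⟨hfin, ⟨c, hc, hev⟩, fun p => ⟨adm_self p, pairOver_self p⟩, ?_⟩
  refine lt_of_lt_of_le hc (Filter.le_liminf_of_le ?_ (hev.mono fun X hX => hX.2.2))
  refine Filter.IsBoundedUnder.isCoboundedUnder_ge ?_
  refine Filter.isBoundedUnder_of ⟨1, fun X => ?_⟩
  unfold proportion
  refine div_le_one_of_le₀ ?_ (Nat.cast_nonneg _)
  exact_mod_cast Set.ncard_le_ncard
    (s := {p ∈ UpTo F X | Subsingleton (Sel 2 (curve p))}) (fun p hp => hp.1) (hfin X)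

end Pool.Agent.Results.MP_8cb858_nt.TrivialTwoSelmerAllExtensions
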